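import Pool.Agent.W795.HE.Stm
import Pool.Agent.W933.HE.ShiftCont

/-!
Project HE: the equivalences at one time, in the abstract frame.
-/

set_option autoImplicit false

open MeasureTheory Set Filter Topology
open scoped InnerProductSpace

namespace Pool.Agent.W795.HE

open H772R2.NSR (Frame prim_cont)
open H772R2.NSG (LH dft Coef ii_of_int)
open Pool.Agent.W795.TQ (FH Univ)
open Pool.Agent.W933.HE (coef dft_sub)

section

variable {H K : Type} [NormedAddCommGroup H] [InnerProductSpace ℝ H] [CompleteSpace H]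
  [NormedAddCommGroup K] [InnerProductSpace ℝ K] [CompleteSpace K]
variable {W : Submodule ℝ (H × K)} {m : H → K} {C ν T : ℝ} {F F1 : ℝ → K} {x0 : H}
  {u : ℝ → H} {z : ℝ → K}

/-- the energy defect does not decrease after almost every time -/
theorem dft_mono_ae (Co : Coef ν T (fun _ => ν) F) (L : LH W m T (fun _ => ν) F x0 u z)
    (hSE : SE ν T F u z) : ∀ᵐ s ∂(volume.restrict (Ioc 0 T)), ∀ t ∈ Icc s T,
      dft (fun _ => ν) F x0 u z s ≤ dft (fun _ => ν) F x0 u z t := by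
  filter_upwards [hSE, ae_restrict_mem measurableSet_Ioc] with s hs hsm t ht
  have h1 := hs t ht
  have h2 := dft_sub Co L hsm.1.le ht.1 ht.2
  rw [intervalIntegral.integral_const_mul] at h2
  linarith

theorem dft_nonneg (Co : Coef ν T (fun _ => ν) F) (L : LH W m T (fun _ => ν) F x0 u z)
    {t : ℝ} (ht : t ∈ Icc 0 T) : 0 ≤ dft (fun _ => ν) F x0 u z t := by
  have h1 := L.energy t ht
  unfold dft
  linarith

theorem dft_bdd (Co : Coef ν T (fun _ => ν) F) (hν : 0 < ν)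
    (L : LH W m T (fun _ => ν) F x0 u z) :
    ∃ B : ℝ, 0 ≤ B ∧ ∀ t ∈ Icc 0 T, dft (fun _ => ν) F x0 u z t ≤ B := by
  have hi := L.Fzi Co
  refine ⟨‖x0‖ ^ 2 / 2 + ∫ s in Ioc 0 T, ‖⟪F s, z s⟫_ℝ‖, by positivity, fun t ht => ?_⟩
  have h1 : ∫ s in (0 : ℝ)..t, ⟪F s, z s⟫_ℝ ≤ ∫ s in Ioc 0 T, ‖⟪F s, z s⟫_ℝ‖ := by
    rw [intervalIntegral.integral_of_le ht.1]
    refine (le_abs_self _).trans ?_
    rw [← Real.norm_eq_abs]
    refine (norm_integral_le_integral_norm _).trans ?_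
    exact setIntegral_mono_set hi.norm (Eventually.of_forall fun s => norm_nonneg _)
      (Ioc_subset_Ioc_right ht.2).eventuallyLE
  have h2 : 0 ≤ ∫ s in (0 : ℝ)..t, ν * ‖z s‖ ^ 2 :=
    intervalIntegral.integral_nonneg ht.1 fun s _ => by positivity
  unfold dft
  have h3 : 0 ≤ ‖u t‖ ^ 2 / 2 := by positivity
  linarith

theorem zsq_int (L : LH W m T (fun _ => ν) F x0 u z) :
    IntegrableOn (fun s => ‖z s‖ ^ 2) (Ioc 0 T) :=
  (memLp_two_iff_integrable_sq_norm L.z2.aestronglyMeasurable).mp L.z2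

theorem usq_int (Co : Coef ν T (fun _ => ν) F) (hν : 0 < ν)
    (L : LH W m T (fun _ => ν) F x0 u z) (U : H) :
    IntegrableOn (fun s => ‖u s - U‖ ^ 2) (Ioc 0 T) := by
  obtain ⟨R, hR⟩ := L.bdd hν.le Co
  have h1 : AEStronglyMeasurable (fun s => u s - U) (volume.restrict (Ioc 0 T)) :=
    L.meas.sub aestronglyMeasurable_const
  have h2 : MemLp (fun s => u s - U) 2 (volume.restrict (Ioc 0 T)) := by
    refine MemLp.of_bound h1 (R + ‖U‖) ?_
    filter_upwards [ae_restrict_mem measurableSet_Ioc] with s hs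
    exact (norm_sub_le _ _).trans (by linarith [hR s (Ioc_subset_Icc_self hs)])
  exact (memLp_two_iff_integrable_sq_norm h1).mp h2

theorem force_bd (hF : FH T F F1) : ∃ Φ : ℝ, 0 ≤ Φ ∧ ∀ t ∈ Icc 0 T, ‖F t‖ ≤ Φ := by
  have hFc : ContinuousOn F (Icc 0 T) := prim_cont hF.memLp hF.prim
  obtain ⟨B, hB⟩ := (isCompact_Icc.image_of_continuousOn hFc).isBounded.exists_norm_le
  exact ⟨max B 0, le_max_right _ _, fun t ht => (hB _ ⟨t, ht, rfl⟩).trans (le_max_left _ _)⟩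

end

/-- From the mean square time modulus to the bound of the dissipation and the energy defect. -/
theorem core (hit : S_it) (htp : S_tp) : ∀ c k : ℝ, 0 < c → 0 ≤ k → ∃ M : ℝ, 0 < M ∧
    ∀ (H K : Type) [NormedAddCommGroup H] [InnerProductSpace ℝ H] [CompleteSpace H]
    [NormedAddCommGroup K] [InnerProductSpace ℝ K] [CompleteSpace K]
    (W : Submodule ℝ (H × K)) (m : H → K) (C ν T : ℝ) (F F1 : ℝ → K) (x0 : H)
    (u : ℝ → H) (z : ℝ → K), Frame W m C → Univ W m c → 0 < ν → 0 < T → FH T F F1 →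
    LH W m T (fun _ => ν) F x0 u z → SE ν T F u z →
    ∀ h0 : ℝ, 0 < h0 → ∃ h1 : ℝ, 0 < h1 ∧ h1 ≤ h0 ∧ ∀ τ : ℝ, h0 ≤ τ → τ ≤ T →
      (∀ h : ℝ, 0 < h → h ≤ h0 →
        ∫ t in (τ - h)..τ, ‖u t - u τ‖ ^ 2 ≤ k ^ 2 * ν ^ (5 / 2 : ℝ) * h ^ (3 / 2 : ℝ)) →
      ∀ h : ℝ, 0 < h → h ≤ h1 →
        ∫ t in (τ - h)..τ, ‖z t‖ ^ 2 ≤ M * ν ^ (3 / 2 : ℝ) * Real.sqrt h ∧
        dft (fun _ => ν) F x0 u z τ - dft (fun _ => ν) F x0 u z (τ - h)
          ≤ M * ν ^ (5 / 2 : ℝ) * Real.sqrt h := by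
  intro c k hc hk
  obtain ⟨C0, hC0, hTP⟩ := htp c hc
  obtain ⟨M, hM, hIt⟩ := hit (2 * C0) k (by positivity) hk
  refine ⟨M, hM, ?_⟩
  intro H K _ _ _ _ _ _ W m C ν T F F1 x0 u z Fr Un hν hT hF L hSE h0 hh0
  have hFc : ContinuousOn F (Icc 0 T) := prim_cont hF.memLp hF.prim
  have Co : Coef ν T (fun _ => ν) F := coef hFc
  obtain ⟨Φ, hΦ0, hΦ⟩ := force_bd hF
  obtain ⟨B, hB0, hB⟩ := dft_bdd Co hν L
  have hν32 : 0 < ν ^ (3 / 2 : ℝ) := Real.rpow_pos_of_pos hν _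
  have hν54 : 0 < ν ^ (5 / 4 : ℝ) := Real.rpow_pos_of_pos hν _
  have hν52 : 0 < ν ^ (5 / 2 : ℝ) := Real.rpow_pos_of_pos hν _
  have hν72 : 0 < ν ^ (7 / 2 : ℝ) := Real.rpow_pos_of_pos hν _
  have e54 : (ν ^ (5 / 4 : ℝ)) ^ 2 = ν ^ (5 / 2 : ℝ) := by
    rw [← Real.rpow_natCast, ← Real.rpow_mul hν.le]; norm_num
  set Lc : ℝ := Φ ^ 2 / ν ^ (7 / 2 : ℝ) with hLc
  have hLc0 : 0 ≤ Lc := by positivity
  set D : ℝ → ℝ := dft (fun _ => ν) F x0 u z with hD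
  set y : ℝ → ℝ := fun t => ‖z t‖ ^ 2 / ν ^ (3 / 2 : ℝ) with hy
  have hy0 : ∀ t, 0 ≤ y t := fun t => by positivity
  have hyi : IntegrableOn y (Ioc 0 T) := (zsq_int L).div_const _
  set Ψ : ℝ → ℝ := fun t => 2 * D t / ν ^ (5 / 2 : ℝ) + ∫ s in (0 : ℝ)..t, y s with hΨ
  have hΨsub : ∀ a b : ℝ, 0 ≤ a → a ≤ b → b ≤ T →
      Ψ b - Ψ a = 2 * ((D b - D a) / ν ^ (5 / 2 : ℝ)) + ∫ s in a..b, y s := by
    intro a b ha hab hb
    have e1 := intervalIntegral.integral_add_adjacent_intervals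
      (ii_of_int hyi le_rfl ha (hab.trans hb)) (ii_of_int hyi ha hab hb)
    simp only [hΨ]
    rw [← e1]
    ring
  set E : ℝ := 2 * (B / ν ^ (5 / 2 : ℝ)) + ∫ s in (0 : ℝ)..T, y s with hE
  have hyT : 0 ≤ ∫ s in (0 : ℝ)..T, y s :=
    intervalIntegral.integral_nonneg hT.le fun s _ => hy0 s
  have hE0 : 0 ≤ E := by positivity
  obtain ⟨h1, hh1, hh10, hIt'⟩ := hIt Lc E h0 hLc0 hE0 hh0
  refine ⟨h1, hh1, hh10, ?_⟩
  intro τ hτ0 hτT hyp
  set d : ℝ → ℝ := fun t => ‖u t - u τ‖ / ν ^ (5 / 4 : ℝ) with hd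
  have hd2 : ∀ t, d t ^ 2 = ‖u t - u τ‖ ^ 2 / ν ^ (5 / 2 : ℝ) := by
    intro t
    simp only [hd]
    rw [div_pow, e54]
  have hsub : Ioo (τ - h0) τ ⊆ Ioc 0 T := fun s hs => ⟨by linarith [hs.1], by linarith [hs.2]⟩
  have hle : (volume.restrict (Ioo (τ - h0) τ) : Measure ℝ) ≤ volume.restrict (Ioc 0 T) :=
    Measure.restrict_mono hsub le_rfl
  have hmono := ae_mono hle (dft_mono_ae Co L hSE)
  have hyab : ∀ a b : ℝ, 0 ≤ a → a ≤ b → b ≤ T → ∫ s in a..b, y s ≤ ∫ s in (0 : ℝ)..T, y s := by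
    intro a b ha hab hb
    rw [intervalIntegral.integral_of_le hab, intervalIntegral.integral_of_le hT.le]
    exact setIntegral_mono_set hyi (Eventually.of_forall fun s => hy0 s)
      (Ioc_subset_Ioc ha hb).eventuallyLE
  have key := hIt' τ y d Ψ hy0 (fun t => by positivity) (hyi.mono_set hsub)
    (by
      refine IntegrableOn.congr_fun (f := fun t => ‖u t - u τ‖ ^ 2 / ν ^ (5 / 2 : ℝ)) ?_
        (fun t _ => (hd2 t).symm) measurableSet_Ioo
      exact ((usq_int Co hν L (u τ)).mono_set hsub).div_const _)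
    (by simp [hd])
    (by
      filter_upwards [hmono, ae_restrict_mem measurableSet_Ioo] with a ha hm b hb
      have ha0 : 0 ≤ a := (hsub hm).1.le
      rw [hΨsub a b ha0 hb.1 (hb.2.trans hτT)]
      have h2 : 0 ≤ (D b - D a) / ν ^ (5 / 2 : ℝ) :=
        div_nonneg (by linarith [ha b ⟨hb.1, hb.2.trans hτT⟩]) hν52.le
      linarith)
    (by
      filter_upwards [ae_restrict_mem measurableSet_Ioo] with a hm
      have ha0 : 0 ≤ a := (hsub hm).1.le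
      rw [hΨsub a τ ha0 hm.2.le hτT]
      have h2 : (D τ - D a) / ν ^ (5 / 2 : ℝ) ≤ B / ν ^ (5 / 2 : ℝ) := by
        gcongr
        have h3 := hB τ ⟨by linarith, hτT⟩
        have h4 := dft_nonneg Co L (t := a) ⟨ha0, by linarith [hm.2]⟩
        linarith
      have h3 := hyab a τ ha0 hm.2.le hτT
      rw [hE]
      linarith)
    (by
      filter_upwards [ae_mono hle L.mem, ae_restrict_mem measurableSet_Ioo] with t1 ht1 hm a ha b
        hb hab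
      have h2 := hTP H K W m C ν T F x0 u z Φ (u τ) Fr Un hν hT hFc L hΦ0 hΦ t1
        (Ioc_subset_Icc_self (hsub hm)) ht1 a ⟨by linarith [ha.1], by linarith [ha.2]⟩ b
        ⟨by linarith [hb.1], by linarith [hb.2]⟩ hab
      rw [hΨsub a b (by linarith [ha.1]) hab (by linarith [hb.2])]
      simp only [← hLc] at h2
      have e1 : (∫ s in a..b, ‖z s‖ ^ 2 / ν ^ (3 / 2 : ℝ)) = ∫ s in a..b, y s := rfl
      rw [e1] at h2
      have e2 : (∫ s in a..b, (‖z t1‖ ^ 2 / ν ^ (3 / 2 : ℝ) + Lc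
          + ((‖z t1‖ ^ 2 / ν ^ (3 / 2 : ℝ)) ^ 2 + Lc)
            * ((‖u s - u τ‖ / ν ^ (5 / 4 : ℝ)) ^ 2 + (‖u t1 - u τ‖ / ν ^ (5 / 4 : ℝ)) ^ 2)))
          = ∫ s in a..b, (y t1 + Lc + (y t1 ^ 2 + Lc) * (d s ^ 2 + d t1 ^ 2)) := rfl
      rw [e2] at h2
      have e3 : C0 * ((‖u a - u τ‖ / ν ^ (5 / 4 : ℝ) + ‖u b - u τ‖ / ν ^ (5 / 4 : ℝ))
          * (‖u a - u τ‖ / ν ^ (5 / 4 : ℝ) + ‖u b - u τ‖ / ν ^ (5 / 4 : ℝ)
            + ‖u t1 - u τ‖ / ν ^ (5 / 4 : ℝ))) = C0 * ((d a + d b) * (d a + d b + d t1)) := rfl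
      rw [e3] at h2
      linarith)
    (by
      intro h hh hhh
      have e1 : (∫ t in (τ - h)..τ, d t ^ 2)
          = (∫ t in (τ - h)..τ, ‖u t - u τ‖ ^ 2) / ν ^ (5 / 2 : ℝ) := by
        rw [← intervalIntegral.integral_div]
        exact intervalIntegral.integral_congr fun t _ => hd2 t
      rw [e1, div_le_iff₀ hν52]
      have := hyp h hh hhh
      linarith)
  intro h hh hhh
  obtain ⟨k1, k2⟩ := key h hh hhh
  have hth : 0 ≤ τ - h := by linarith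
  have k3 := hΨsub (τ - h) τ hth (by linarith) hτT
  have k4 : 0 ≤ ∫ t in (τ - h)..τ, y t :=
    intervalIntegral.integral_nonneg (by linarith) fun s _ => hy0 s
  have hs0 := Real.sqrt_nonneg h
  constructor
  · have e1 : (∫ t in (τ - h)..τ, y t) = (∫ t in (τ - h)..τ, ‖z t‖ ^ 2) / ν ^ (3 / 2 : ℝ) := by
      rw [← intervalIntegral.integral_div]
    rw [e1, div_le_iff₀ hν32] at k1
    linarith
  · have k5 : (D τ - D (τ - h)) / ν ^ (5 / 2 : ℝ) ≤ M * Real.sqrt h := by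
      have : 0 ≤ M * Real.sqrt h := by positivity
      linarith
    rw [div_le_iff₀ hν52] at k5
    linarith

end Pool.Agent.W795.HE
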