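import Pool.Agent.W795.HE.FinA

/-!
Project HE: the equivalences at one time, in the abstract frame.
-/

set_option autoImplicit false

open MeasureTheory Set Filter Topology
open scoped InnerProductSpace

namespace Pool.Agent.W795.HE

open H772R2.NSR (Frame prim_cont)
open H772R2.NSG (LH dft Coef ii_of_int)
open Pool.Agent.W795.TQ (FH Univ)
open Pool.Agent.W933.HE (coef dft_sub)

theorem exists_good {a b : ℝ} (hab : a < b) {f : ℝ → ℝ} (hf : IntegrableOn f (Ioo a b))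
    {p : ℝ → Prop} (hp : ∀ᵐ s ∂(volume.restrict (Ioo a b)), p s) {Q : ℝ}
    (hQ : ∫ s in a..b, f s ≤ Q) : ∃ s ∈ Ioo a b, p s ∧ f s ≤ Q / (b - a) := by
  have hvol : volume (Ioo a b) = ENNReal.ofReal (b - a) := Real.volume_Ioo
  have hpos : volume (Ioo a b) ≠ 0 := by
    rw [hvol]
    simp [hab]
  have hfin : volume (Ioo a b) ≠ ⊤ := by
    rw [hvol]
    exact ENNReal.ofReal_ne_top
  have h1 := measure_le_setAverage_pos hpos hfin hf
  have h2 : ⨍ s in Ioo a b, f s ≤ Q / (b - a) := by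
    rw [setAverage_eq, measureReal_def, hvol, ENNReal.toReal_ofReal (by linarith), smul_eq_mul,
      inv_mul_eq_div]
    have : ∫ s in Ioo a b, f s = ∫ s in a..b, f s := by
      rw [intervalIntegral.integral_of_le hab.le, integral_Ioc_eq_integral_Ioo]
    rw [this]
    have hab' : 0 < b - a := by linarith
    gcongr
  rw [ae_restrict_iff' measurableSet_Ioo] at hp
  by_contra hcon
  have h3 : {x | x ∈ Ioo a b ∧ f x ≤ ⨍ s in Ioo a b, f s} ⊆ {x | ¬ (x ∈ Ioo a b → p x)} := by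
    intro x hx hx2
    exact hcon ⟨x, hx.1, hx2 hx.1, hx.2.trans h2⟩
  have h4 := measure_mono_null h3 hp
  exact h1.ne' h4

section

variable {H K : Type} [NormedAddCommGroup H] [InnerProductSpace ℝ H] [CompleteSpace H]
  [NormedAddCommGroup K] [InnerProductSpace ℝ K] [CompleteSpace K]
variable {W : Submodule ℝ (H × K)} {m : H → K} {C c ν T τ : ℝ} {F F1 : ℝ → K} {x0 : H}
  {u : ℝ → H} {z : ℝ → K}

/-- (i) implies (ii) -/
theorem ii_of_i (Co : Coef ν T (fun _ => ν) F) (hν : 0 < ν)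
    (L : LH W m T (fun _ => ν) F x0 u z) (hτ : τ ∈ Ioc 0 T) {M : ℝ}
    (h : ∀ t ∈ Icc 0 τ, ‖u t - u τ‖ ≤ M * (τ - t) ^ (1 / 4 : ℝ)) :
    ∀ t ∈ Icc 0 τ, ∫ s in t..τ, ‖u s - u τ‖ ^ 2 ≤ M ^ 2 * (τ - t) ^ (3 / 2 : ℝ) := by
  intro t ht
  have hi := usq_int Co hν L (u τ)
  have hts : 0 ≤ τ - t := by linarith [ht.2]
  have h1 : ∫ s in t..τ, ‖u s - u τ‖ ^ 2 ≤ ∫ s in t..τ, M ^ 2 * (τ - t) ^ (1 / 2 : ℝ) := by
    refine intervalIntegral.integral_mono_on ht.2 (ii_of_int hi ht.1 ht.2 hτ.2)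
      intervalIntegrable_const fun s hs => ?_
    have h2 := h s ⟨ht.1.trans hs.1, hs.2⟩
    have hs0 : 0 ≤ τ - s := by linarith [hs.2]
    calc ‖u s - u τ‖ ^ 2 ≤ (M * (τ - s) ^ (1 / 4 : ℝ)) ^ 2 := by gcongr
      _ = M ^ 2 * (τ - s) ^ (1 / 2 : ℝ) := by
          rw [mul_pow, ← Real.rpow_natCast ((τ - s) ^ (1 / 4 : ℝ)) 2, ← Real.rpow_mul hs0]
          norm_num
      _ ≤ M ^ 2 * (τ - t) ^ (1 / 2 : ℝ) := by
          gcongr
          exact hs.1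
  refine h1.trans ?_
  rw [intervalIntegral.integral_const, smul_eq_mul]
  have h3 : (τ - t) ^ (3 / 2 : ℝ) = (τ - t) * (τ - t) ^ (1 / 2 : ℝ) := by
    rcases hts.eq_or_lt with h0 | h0
    · rw [← h0, Real.zero_rpow (by norm_num), zero_mul]
    · rw [show (3 / 2 : ℝ) = 1 + 1 / 2 by norm_num, Real.rpow_add h0, Real.rpow_one]
  rw [h3]
  linarith

/-- (ii) implies (iii) and the bound of the defect -/
theorem iii_of_ii (hit : S_it) (htp : S_tp) (Fr : Frame W m C) (Un : Univ W m c) (hc : 0 < c)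
    (hν : 0 < ν) (hT : 0 < T) (hF : FH T F F1)
    (L : LH W m T (fun _ => ν) F x0 u z) (hSE : SE ν T F u z) (hτ : τ ∈ Ioc 0 T) {M : ℝ}
    (h : ∀ t ∈ Icc 0 τ, ∫ s in t..τ, ‖u s - u τ‖ ^ 2 ≤ M * (τ - t) ^ (3 / 2 : ℝ)) :
    ∃ M' : ℝ, 0 ≤ M' ∧ ∀ t ∈ Icc 0 τ, ∫ s in t..τ, ‖z s‖ ^ 2 ≤ M' * Real.sqrt (τ - t) ∧
      dft (fun _ => ν) F x0 u z τ - dft (fun _ => ν) F x0 u z t ≤ M' * Real.sqrt (τ - t) := by
  have hFc : ContinuousOn F (Icc 0 T) := prim_cont hF.memLp hF.prim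
  have Co : Coef ν T (fun _ => ν) F := coef hFc
  obtain ⟨B, hB0, hB⟩ := dft_bdd Co hν L
  have hν32 : 0 < ν ^ (3 / 2 : ℝ) := Real.rpow_pos_of_pos hν _
  have hν52 : 0 < ν ^ (5 / 2 : ℝ) := Real.rpow_pos_of_pos hν _
  set k : ℝ := Real.sqrt (|M| / ν ^ (5 / 2 : ℝ)) with hk
  have hk2 : k ^ 2 * ν ^ (5 / 2 : ℝ) = |M| := by
    rw [hk, Real.sq_sqrt (by positivity)]
    field_simp
  obtain ⟨M1, hM1, hcore⟩ := core hit htp c k hc (Real.sqrt_nonneg _)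
  obtain ⟨h1, hh1, hh10, key⟩ := hcore H K W m C ν T F F1 x0 u z Fr Un hν hT hF L hSE τ hτ.1
  have key' := key τ le_rfl hτ.2 (by
    intro h' hh' hhh'
    have h2 := h (τ - h') ⟨by linarith, by linarith⟩
    rw [sub_sub_cancel] at h2
    rw [hk2]
    refine h2.trans ?_
    gcongr
    exact le_abs_self M)
  set Z : ℝ := ∫ s in (0 : ℝ)..T, ‖z s‖ ^ 2 with hZ
  have hZ0 : 0 ≤ Z := intervalIntegral.integral_nonneg hT.le fun s _ => by positivity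
  have hs1 : 0 < Real.sqrt h1 := Real.sqrt_pos.2 hh1
  refine ⟨M1 * ν ^ (3 / 2 : ℝ) + M1 * ν ^ (5 / 2 : ℝ) + Z / Real.sqrt h1 + B / Real.sqrt h1,
    by positivity, ?_⟩
  intro t ht
  rcases ht.2.eq_or_lt with heq | hlt
  · rw [heq]
    simp
  have hss := Real.sqrt_nonneg (τ - t)
  by_cases hc1 : τ - t ≤ h1
  · obtain ⟨k1, k2⟩ := key' (τ - t) (by linarith) hc1
    rw [sub_sub_cancel] at k1 k2
    constructor
    · refine k1.trans ?_
      gcongr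
      have : 0 ≤ M1 * ν ^ (5 / 2 : ℝ) + Z / Real.sqrt h1 + B / Real.sqrt h1 := by positivity
      linarith
    · refine k2.trans ?_
      gcongr
      have : 0 ≤ M1 * ν ^ (3 / 2 : ℝ) + Z / Real.sqrt h1 + B / Real.sqrt h1 := by positivity
      linarith
  · have hsle : Real.sqrt h1 ≤ Real.sqrt (τ - t) := Real.sqrt_le_sqrt (by linarith)
    have k1 : ∫ s in t..τ, ‖z s‖ ^ 2 ≤ Z := by
      rw [hZ, intervalIntegral.integral_of_le hlt.le, intervalIntegral.integral_of_le hT.le]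
      exact setIntegral_mono_set (zsq_int L) (Eventually.of_forall fun s => by positivity)
        (Ioc_subset_Ioc ht.1 hτ.2).eventuallyLE
    have k2 : dft (fun _ => ν) F x0 u z τ - dft (fun _ => ν) F x0 u z t ≤ B := by
      have h3 := hB τ ⟨hτ.1.le, hτ.2⟩
      have h4 := dft_nonneg Co L (t := t) ⟨ht.1, ht.2.trans hτ.2⟩
      linarith
    have k3 : ∀ X : ℝ, 0 ≤ X → X ≤ X / Real.sqrt h1 * Real.sqrt (τ - t) := by
      intro X hX
      rw [div_mul_eq_mul_div, le_div_iff₀ hs1]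
      gcongr
    constructor
    · refine k1.trans ((k3 Z hZ0).trans ?_)
      gcongr
      have : 0 ≤ M1 * ν ^ (3 / 2 : ℝ) + M1 * ν ^ (5 / 2 : ℝ) + B / Real.sqrt h1 := by positivity
      linarith
    · refine k2.trans ((k3 B hB0).trans ?_)
      gcongr
      have : 0 ≤ M1 * ν ^ (3 / 2 : ℝ) + M1 * ν ^ (5 / 2 : ℝ) + Z / Real.sqrt h1 := by positivity
      linarith

/-- (iii) implies (i) -/
theorem i_of_iii (hgrw : S_grw) (Fr : Frame W m C) (Un : Univ W m c) (hc : 0 < c)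
    (hν : 0 < ν) (hT : 0 < T) (hF : FH T F F1)
    (L : LH W m T (fun _ => ν) F x0 u z) (hSE : SE ν T F u z) (hτ : τ ∈ Ioc 0 T) {M : ℝ}
    (h : ∀ t ∈ Icc 0 τ, ∫ s in t..τ, ‖z s‖ ^ 2 ≤ M * Real.sqrt (τ - t)) :
    ∃ M' : ℝ, ∀ t ∈ Icc 0 τ, ‖u t - u τ‖ ≤ M' * (τ - t) ^ (1 / 4 : ℝ) := by
  have hFc : ContinuousOn F (Icc 0 T) := prim_cont hF.memLp hF.prim
  have Co : Coef ν T (fun _ => ν) F := coef hFc
  obtain ⟨Φ, hΦ0, hΦ⟩ := force_bd hF
  obtain ⟨C3, hC3, hG⟩ := hgrw c hc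
  obtain ⟨R, hR⟩ := L.bdd hν.le Co
  have hR0 : 0 ≤ R := (norm_nonneg _).trans (hR 0 ⟨le_rfl, hT.le⟩)
  have hν32 : 0 < ν ^ (3 / 2 : ℝ) := Real.rpow_pos_of_pos hν _
  have hν52 : 0 < ν ^ (5 / 2 : ℝ) := Real.rpow_pos_of_pos hν _
  have hν72 : 0 < ν ^ (7 / 2 : ℝ) := Real.rpow_pos_of_pos hν _
  have hM0 : 0 ≤ M := by
    have h1 := h 0 ⟨le_rfl, hτ.1.le⟩
    have h2 : 0 ≤ ∫ s in (0 : ℝ)..τ, ‖z s‖ ^ 2 :=
      intervalIntegral.integral_nonneg hτ.1.le fun s _ => by positivity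
    have h3 : 0 < Real.sqrt (τ - 0) := Real.sqrt_pos.2 (by linarith [hτ.1])
    by_contra h4
    push Not at h4
    have : M * Real.sqrt (τ - 0) < 0 := mul_neg_of_neg_of_pos h4 h3
    linarith
  set N : ℝ := Real.sqrt 2 * M / ν ^ (3 / 2 : ℝ) with hN
  have hN0 : 0 ≤ N := by positivity
  set Lc : ℝ := Φ ^ 2 / ν ^ (7 / 2 : ℝ) with hLc
  have hLc0 : 0 ≤ Lc := by positivity
  set Q : ℝ := C3 * (2 * N + 2 * Real.sqrt T * Lc) * Real.exp (C3 * (2 * N ^ 2)) with hQ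
  have hQ0 : 0 ≤ Q := by positivity
  set P : ℝ := 2 * Real.sqrt (Q * ν ^ (5 / 2 : ℝ)) with hP
  have hP0 : 0 ≤ P := by positivity
  have hτ4 : 0 < (τ / 2) ^ (1 / 4 : ℝ) := Real.rpow_pos_of_pos (by linarith [hτ.1]) _
  refine ⟨P + 2 * R / (τ / 2) ^ (1 / 4 : ℝ), ?_⟩
  intro t ht
  rcases ht.2.eq_or_lt with heq | hlt
  · rw [heq, sub_self, norm_zero, sub_self, Real.zero_rpow (by norm_num), mul_zero]
  have hh0 : 0 < τ - t := by linarith
  set hh : ℝ := τ - t with hhh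
  have h40 : 0 < hh ^ (1 / 4 : ℝ) := Real.rpow_pos_of_pos hh0 _
  by_cases hc1 : 2 * hh ≤ τ
  · have hsub : Ioo (τ - 2 * hh) (τ - hh) ⊆ Ioc 0 T :=
      fun s hs => ⟨by linarith [hs.1], by linarith [hs.2, hτ.2]⟩
    have hle : (volume.restrict (Ioo (τ - 2 * hh) (τ - hh)) : Measure ℝ)
        ≤ volume.restrict (Ioc 0 T) := Measure.restrict_mono hsub le_rfl
    have hint : ∫ s in (τ - 2 * hh)..(τ - hh), ‖z s‖ ^ 2 ≤ M * Real.sqrt (2 * hh) := by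
      have h1 := h (τ - 2 * hh) ⟨by linarith, by linarith⟩
      rw [sub_sub_cancel] at h1
      refine le_trans ?_ h1
      rw [intervalIntegral.integral_of_le (by linarith), intervalIntegral.integral_of_le
        (by linarith)]
      refine setIntegral_mono_set ((zsq_int L).mono_set (Ioc_subset_Ioc (by linarith) hτ.2))
        (Eventually.of_forall fun s => by positivity)
        (Ioc_subset_Ioc le_rfl (by linarith)).eventuallyLE
    obtain ⟨t1, ht1, ⟨hgood, hmono⟩, hz⟩ := exists_good (by linarith) ((zsq_int L).mono_set hsub)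
      (ae_mono hle (L.mem.and (dft_mono_ae Co L hSE))) hint
    have ht1' : t1 ∈ Icc 0 T := Ioc_subset_Icc_self (hsub ht1)
    have hsh : 0 < Real.sqrt hh := Real.sqrt_pos.2 hh0
    have hsq : Real.sqrt hh ^ 2 = hh := Real.sq_sqrt hh0.le
    have hy : ‖z t1‖ ^ 2 / ν ^ (3 / 2 : ℝ) ≤ N / Real.sqrt hh := by
      rw [show τ - hh - (τ - 2 * hh) = hh by ring] at hz
      have e1 : M * Real.sqrt (2 * hh) / hh = Real.sqrt 2 * M / Real.sqrt hh := by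
        rw [Real.sqrt_mul (by norm_num)]
        nth_rw 2 [← hsq]
        field_simp
      rw [e1] at hz
      rw [hN, div_div, mul_comm (ν ^ (3 / 2 : ℝ)), ← div_div]
      gcongr
    have hy0 : 0 ≤ ‖z t1‖ ^ 2 / ν ^ (3 / 2 : ℝ) := by positivity
    have hT1 : hh ≤ Real.sqrt T * Real.sqrt hh := by
      have h1 : Real.sqrt hh ≤ Real.sqrt T := Real.sqrt_le_sqrt (by linarith [hτ.2, ht.1])
      calc hh = Real.sqrt hh * Real.sqrt hh := by rw [← hsq]; ring_nf; rw [Real.sqrt_sq hsh.le]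
        _ ≤ Real.sqrt T * Real.sqrt hh := by gcongr
    have hb : ∀ b ∈ Icc (τ - hh) τ, ‖u b - u t1‖ ≤ Real.sqrt (Q * ν ^ (5 / 2 : ℝ)) *
        hh ^ (1 / 4 : ℝ) := by
      intro b hb
      have h1 := hG H K W m C ν T F x0 u z Φ Fr Un hν hT hFc L hΦ0 hΦ t1 ht1' hgood hmono b
        ⟨by linarith [hb.1, ht1.2], hb.2.trans hτ.2⟩
      have h2 : b - t1 ≤ 2 * hh := by linarith [hb.2, ht1.1]
      have h20 : 0 ≤ b - t1 := by linarith [hb.1, ht1.2]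
      have h3 : (b - t1) * (‖z t1‖ ^ 2 / ν ^ (3 / 2 : ℝ) + Φ ^ 2 / ν ^ (7 / 2 : ℝ))
          ≤ (2 * N + 2 * Real.sqrt T * Lc) * Real.sqrt hh := by
        calc (b - t1) * (‖z t1‖ ^ 2 / ν ^ (3 / 2 : ℝ) + Φ ^ 2 / ν ^ (7 / 2 : ℝ))
            ≤ 2 * hh * (N / Real.sqrt hh + Lc) := by gcongr
          _ = 2 * N * Real.sqrt hh + 2 * hh * Lc := by
              rw [mul_add]
              congr 1
              nth_rw 1 [← hsq]
              field_simp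
          _ ≤ 2 * N * Real.sqrt hh + 2 * (Real.sqrt T * Real.sqrt hh) * Lc := by gcongr
          _ = _ := by ring
      have h4 : (b - t1) * (‖z t1‖ ^ 2 / ν ^ (3 / 2 : ℝ)) ^ 2 ≤ 2 * N ^ 2 := by
        calc (b - t1) * (‖z t1‖ ^ 2 / ν ^ (3 / 2 : ℝ)) ^ 2
            ≤ 2 * hh * (N / Real.sqrt hh) ^ 2 := by gcongr
          _ = 2 * N ^ 2 := by
              rw [div_pow, hsq]
              field_simp
      have h5 : ‖u b - u t1‖ ^ 2 / ν ^ (5 / 2 : ℝ) ≤ Q * Real.sqrt hh := by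
        refine h1.trans ?_
        calc C3 * ((b - t1) * (‖z t1‖ ^ 2 / ν ^ (3 / 2 : ℝ) + Φ ^ 2 / ν ^ (7 / 2 : ℝ)))
            * Real.exp (C3 * ((b - t1) * (‖z t1‖ ^ 2 / ν ^ (3 / 2 : ℝ)) ^ 2))
            ≤ C3 * ((2 * N + 2 * Real.sqrt T * Lc) * Real.sqrt hh)
              * Real.exp (C3 * (2 * N ^ 2)) := by gcongr
          _ = Q * Real.sqrt hh := by rw [hQ]; ring
      rw [div_le_iff₀ hν52] at h5
      have h6 : ‖u b - u t1‖ ^ 2 ≤ (Real.sqrt (Q * ν ^ (5 / 2 : ℝ)) * hh ^ (1 / 4 : ℝ)) ^ 2 := by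
        rw [mul_pow, Real.sq_sqrt (by positivity), ← Real.rpow_natCast (hh ^ (1 / 4 : ℝ)) 2,
          ← Real.rpow_mul hh0.le]
        have e2 : hh ^ ((1 / 4 : ℝ) * ((2 : ℕ) : ℝ)) = Real.sqrt hh := by
          rw [Real.sqrt_eq_rpow]
          norm_num
        rw [e2]
        linarith
      exact (pow_le_pow_iff_left₀ (norm_nonneg _) (by positivity) (by norm_num)).mp h6
    have h7 := hb (τ - hh) ⟨le_rfl, by linarith⟩
    have h8 := hb τ ⟨by linarith, le_rfl⟩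
    have e3 : τ - hh = t := by rw [hhh]; ring
    rw [e3] at h7
    calc ‖u t - u τ‖ ≤ ‖u t - u t1‖ + ‖u τ - u t1‖ := by
          have := norm_sub_le (u t - u t1) (u τ - u t1)
          rwa [sub_sub_sub_cancel_right] at this
      _ ≤ P * hh ^ (1 / 4 : ℝ) := by
          rw [hP]
          linarith
      _ ≤ _ := by
          gcongr
          have : 0 ≤ 2 * R / (τ / 2) ^ (1 / 4 : ℝ) := by positivity
          linarith
  · push Not at hc1
    have h1 : (τ / 2) ^ (1 / 4 : ℝ) ≤ hh ^ (1 / 4 : ℝ) := by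
      have h0 : 0 ≤ τ / 2 := by linarith [hτ.1]
      exact Real.rpow_le_rpow h0 (by linarith) (by norm_num)
    have h2 : ‖u t - u τ‖ ≤ 2 * R := by
      have h3 := hR t ⟨ht.1, ht.2.trans hτ.2⟩
      have h4 := hR τ ⟨hτ.1.le, hτ.2⟩
      exact (norm_sub_le _ _).trans (by linarith)
    have h3 : 2 * R ≤ 2 * R / (τ / 2) ^ (1 / 4 : ℝ) * hh ^ (1 / 4 : ℝ) := by
      rw [div_mul_eq_mul_div, le_div_iff₀ hτ4]
      gcongr
    refine h2.trans (h3.trans ?_)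
    gcongr
    linarith

theorem Fz_le (hν : 0 < ν) {Φ : ℝ} (hΦ : ∀ t ∈ Icc 0 T, ‖F t‖ ≤ Φ)
    (Co : Coef ν T (fun _ => ν) F)
    (L : LH W m T (fun _ => ν) F x0 u z) {a b e : ℝ} (he : 0 < e) (ha : 0 ≤ a) (hab : a ≤ b)
    (hb : b ≤ T) : |∫ s in a..b, ⟪F s, z s⟫_ℝ| ≤
      e / 2 * (∫ s in a..b, ‖z s‖ ^ 2) + Φ ^ 2 / (2 * e) * (b - a) := by
  have hi := ii_of_int (L.Fzi Co) ha hab hb
  have hz := ii_of_int (zsq_int L) ha hab hb
  have h1 : |∫ s in a..b, ⟪F s, z s⟫_ℝ| ≤ ∫ s in a..b, |⟪F s, z s⟫_ℝ| :=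
    intervalIntegral.abs_integral_le_integral_abs hab
  have h2 : ∫ s in a..b, |⟪F s, z s⟫_ℝ| ≤ ∫ s in a..b, (e / 2 * ‖z s‖ ^ 2 + Φ ^ 2 / (2 * e)) := by
    refine intervalIntegral.integral_mono_on hab hi.abs
      ((hz.const_mul _).add intervalIntegrable_const) fun s hs => ?_
    have h3 : |⟪F s, z s⟫_ℝ| ≤ ‖F s‖ * ‖z s‖ := abs_real_inner_le_norm _ _
    have h4 : ‖F s‖ * ‖z s‖ ≤ Φ * ‖z s‖ := by
      gcongr
      exact hΦ s ⟨ha.trans hs.1, hs.2.trans hb⟩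
    have h5 : 0 ≤ (e * ‖z s‖ - Φ) ^ 2 / (2 * e) := by positivity
    have h6 : (e * ‖z s‖ - Φ) ^ 2 / (2 * e) = e / 2 * ‖z s‖ ^ 2 + Φ ^ 2 / (2 * e) - Φ * ‖z s‖ := by
      field_simp
      ring
    linarith
  refine h1.trans (h2.trans ?_)
  rw [intervalIntegral.integral_add (hz.const_mul _) intervalIntegrable_const,
    intervalIntegral.integral_const_mul, intervalIntegral.integral_const, smul_eq_mul]
  linarith

/-- (iii) and the bound of the defect imply (iv) -/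
theorem iv_of_iii (hν : 0 < ν) (hT : 0 < T) (hF : FH T F F1)
    (L : LH W m T (fun _ => ν) F x0 u z) (hτ : τ ∈ Ioc 0 T) {M : ℝ}
    (h : ∀ t ∈ Icc 0 τ, ∫ s in t..τ, ‖z s‖ ^ 2 ≤ M * Real.sqrt (τ - t) ∧
      dft (fun _ => ν) F x0 u z τ - dft (fun _ => ν) F x0 u z t ≤ M * Real.sqrt (τ - t)) :
    ∃ M' : ℝ, ∀ t ∈ Icc 0 τ, ‖u t‖ ^ 2 - ‖u τ‖ ^ 2 ≤ M' * Real.sqrt (τ - t) := by
  have hFc : ContinuousOn F (Icc 0 T) := prim_cont hF.memLp hF.prim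
  have Co : Coef ν T (fun _ => ν) F := coef hFc
  obtain ⟨Φ, hΦ0, hΦ⟩ := force_bd hF
  refine ⟨2 * M + (2 * ν + 1) * M + Φ ^ 2 * Real.sqrt T, fun t ht => ?_⟩
  obtain ⟨h1, h2⟩ := h t ht
  have h3 := dft_sub Co L ht.1 ht.2 hτ.2
  have h4 := Fz_le hν hΦ Co L one_pos ht.1 ht.2 hτ.2
  rw [intervalIntegral.integral_const_mul] at h3
  have h5 := abs_le.1 h4
  have hT1 : τ - t ≤ Real.sqrt T * Real.sqrt (τ - t) := by
    have hs : Real.sqrt (τ - t) ≤ Real.sqrt T := Real.sqrt_le_sqrt (by linarith [hτ.2, ht.1])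
    calc τ - t = Real.sqrt (τ - t) * Real.sqrt (τ - t) :=
          (Real.mul_self_sqrt (by linarith [ht.2])).symm
      _ ≤ Real.sqrt T * Real.sqrt (τ - t) := by gcongr
  have h6 : Φ ^ 2 * (τ - t) ≤ Φ ^ 2 * (Real.sqrt T * Real.sqrt (τ - t)) := by gcongr
  have h7 : (2 * ν + 1) * (∫ s in t..τ, ‖z s‖ ^ 2) ≤ (2 * ν + 1) * (M * Real.sqrt (τ - t)) := by
    gcongr
  norm_num at h5
  nlinarith [h5.1, h5.2]

/-- (iv) implies (iii) -/
theorem iii_of_iv (hν : 0 < ν) (hT : 0 < T) (hF : FH T F F1)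
    (L : LH W m T (fun _ => ν) F x0 u z) (hSE : SE ν T F u z) (hτ : τ ∈ Ioc 0 T) {M : ℝ}
    (h : ∀ t ∈ Icc 0 τ, ‖u t‖ ^ 2 - ‖u τ‖ ^ 2 ≤ M * Real.sqrt (τ - t)) :
    ∃ M' : ℝ, ∀ t ∈ Icc 0 τ, ∫ s in t..τ, ‖z s‖ ^ 2 ≤ M' * Real.sqrt (τ - t) := by
  have hFc : ContinuousOn F (Icc 0 T) := prim_cont hF.memLp hF.prim
  have Co : Coef ν T (fun _ => ν) F := coef hFc
  obtain ⟨Φ, hΦ0, hΦ⟩ := force_bd hF
  set Z : ℝ := ∫ s in (0 : ℝ)..T, ‖z s‖ ^ 2 with hZ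
  have hZ0 : 0 ≤ Z := intervalIntegral.integral_nonneg hT.le fun s _ => by positivity
  have hs1 : 0 < Real.sqrt (τ / 2) := Real.sqrt_pos.2 (by linarith [hτ.1])
  set A : ℝ := |M| * Real.sqrt 2 / ν + 2 * Φ ^ 2 * Real.sqrt T / ν ^ 2 with hA
  have hA0 : 0 ≤ A := by positivity
  refine ⟨A + Z / Real.sqrt (τ / 2), fun t ht => ?_⟩
  rcases ht.2.eq_or_lt with heq | hlt
  · rw [heq]
    simp
  have hh0 : 0 < τ - t := by linarith
  set hh : ℝ := τ - t with hhh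
  have hss := Real.sqrt_nonneg hh
  by_cases hc1 : 2 * hh ≤ τ
  · have hsub : Ioo (τ - 2 * hh) (τ - hh) ⊆ Ioc 0 T :=
      fun s hs => ⟨by linarith [hs.1], by linarith [hs.2, hτ.2]⟩
    have hle : (volume.restrict (Ioo (τ - 2 * hh) (τ - hh)) : Measure ℝ)
        ≤ volume.restrict (Ioc 0 T) := Measure.restrict_mono hsub le_rfl
    obtain ⟨s, hs, hgood, -⟩ := exists_good (a := τ - 2 * hh) (b := τ - hh) (by linarith)
      ((zsq_int L).mono_set hsub) (ae_mono hle hSE) le_rfl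
    have hs' := hsub hs
    have h1 := hgood τ ⟨by linarith [hs.2], hτ.2⟩
    have h2 := Fz_le hν hΦ Co L hν hs'.1.le (by linarith [hs.2] : s ≤ τ) hτ.2
    have h3 := (abs_le.1 h2).2
    have h4 := h s ⟨hs'.1.le, by linarith [hs.2]⟩
    have h5 : M * Real.sqrt (τ - s) ≤ |M| * (Real.sqrt 2 * Real.sqrt hh) := by
      rw [← Real.sqrt_mul (by norm_num)]
      calc M * Real.sqrt (τ - s) ≤ |M| * Real.sqrt (τ - s) := by
            gcongr
            exact le_abs_self M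
        _ ≤ |M| * Real.sqrt (2 * hh) := by
            gcongr
            linarith [hs.1]
    have h6 : ∫ r in t..τ, ‖z r‖ ^ 2 ≤ ∫ r in s..τ, ‖z r‖ ^ 2 := by
      have hst : s ≤ t := by linarith [hs.2]
      rw [intervalIntegral.integral_of_le hlt.le, intervalIntegral.integral_of_le
        (hst.trans hlt.le)]
      refine setIntegral_mono_set ((zsq_int L).mono_set (Ioc_subset_Ioc hs'.1.le hτ.2))
        (Eventually.of_forall fun s => by positivity)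
        (Ioc_subset_Ioc hst le_rfl).eventuallyLE
    have hT1 : hh ≤ Real.sqrt T * Real.sqrt hh := by
      have hs : Real.sqrt hh ≤ Real.sqrt T := Real.sqrt_le_sqrt (by linarith [hτ.2, ht.1])
      calc hh = Real.sqrt hh * Real.sqrt hh := (Real.mul_self_sqrt hh0.le).symm
        _ ≤ Real.sqrt T * Real.sqrt hh := by gcongr
    have h7 : ν * (∫ r in s..τ, ‖z r‖ ^ 2) ≤ |M| * (Real.sqrt 2 * Real.sqrt hh)
        + Φ ^ 2 / ν * (2 * hh) := by
      have h8 : Φ ^ 2 / (2 * ν) * (τ - s) ≤ Φ ^ 2 / (2 * ν) * (2 * hh) := by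
        gcongr
        linarith [hs.1]
      have h9 : Φ ^ 2 / ν * (2 * hh) = 2 * (Φ ^ 2 / (2 * ν) * (2 * hh)) := by
        field_simp
      linarith
    have h8 : ν * (∫ r in s..τ, ‖z r‖ ^ 2) ≤ ν * (A * Real.sqrt hh) := by
      refine h7.trans ?_
      have h9 : Φ ^ 2 / ν * (2 * hh) ≤ Φ ^ 2 / ν * (2 * (Real.sqrt T * Real.sqrt hh)) := by gcongr
      have h10 : ν * (A * Real.sqrt hh) = |M| * (Real.sqrt 2 * Real.sqrt hh)
          + Φ ^ 2 / ν * (2 * (Real.sqrt T * Real.sqrt hh)) := by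
        rw [hA]
        field_simp
      linarith
    have h9 := le_of_mul_le_mul_left h8 hν
    refine h6.trans (h9.trans ?_)
    gcongr
    have : 0 ≤ Z / Real.sqrt (τ / 2) := by positivity
    linarith
  · push Not at hc1
    have k1 : ∫ s in t..τ, ‖z s‖ ^ 2 ≤ Z := by
      rw [hZ, intervalIntegral.integral_of_le hlt.le, intervalIntegral.integral_of_le hT.le]
      exact setIntegral_mono_set (zsq_int L) (Eventually.of_forall fun s => by positivity)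
        (Ioc_subset_Ioc ht.1 hτ.2).eventuallyLE
    have hsle : Real.sqrt (τ / 2) ≤ Real.sqrt hh := Real.sqrt_le_sqrt (by linarith)
    have k3 : Z ≤ Z / Real.sqrt (τ / 2) * Real.sqrt hh := by
      rw [div_mul_eq_mul_div, le_div_iff₀ hs1]
      gcongr
    refine k1.trans (k3.trans ?_)
    gcongr
    linarith

/-- The equivalences at one time. -/
theorem tfae_abs (hit : S_it) (htp : S_tp) (hgrw : S_grw) (Fr : Frame W m C) (Un : Univ W m c)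
    (hc : 0 < c) (hν : 0 < ν) (hT : 0 < T) (hF : FH T F F1)
    (L : LH W m T (fun _ => ν) F x0 u z) (hSE : SE ν T F u z) (hτ : τ ∈ Ioc 0 T) :
    List.TFAE [
      ∃ M : ℝ, ∀ t ∈ Icc 0 τ, ‖u t - u τ‖ ≤ M * (τ - t) ^ (1 / 4 : ℝ),
      ∃ M : ℝ, ∀ t ∈ Icc 0 τ, ∫ s in t..τ, ‖u s - u τ‖ ^ 2 ≤ M * (τ - t) ^ (3 / 2 : ℝ),
      ∃ M : ℝ, ∀ t ∈ Icc 0 τ, ∫ s in t..τ, ‖z s‖ ^ 2 ≤ M * Real.sqrt (τ - t),
      ∃ M : ℝ, ∀ t ∈ Icc 0 τ, ‖u t‖ ^ 2 - ‖u τ‖ ^ 2 ≤ M * Real.sqrt (τ - t)] := by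
  have hFc : ContinuousOn F (Icc 0 T) := prim_cont hF.memLp hF.prim
  have Co : Coef ν T (fun _ => ν) F := coef hFc
  tfae_have 1 → 2 := fun ⟨M, h⟩ => ⟨_, ii_of_i Co hν L hτ h⟩
  tfae_have 2 → 3 := fun ⟨M, h⟩ => by
    obtain ⟨M', -, h'⟩ := iii_of_ii hit htp Fr Un hc hν hT hF L hSE hτ h
    exact ⟨M', fun t ht => (h' t ht).1⟩
  tfae_have 3 → 1 := fun ⟨M, h⟩ => i_of_iii hgrw Fr Un hc hν hT hF L hSE hτ h
  tfae_have 2 → 4 := fun ⟨M, h⟩ => by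
    obtain ⟨M', -, h'⟩ := iii_of_ii hit htp Fr Un hc hν hT hF L hSE hτ h
    exact iv_of_iii hν hT hF L hτ h'
  tfae_have 4 → 3 := fun ⟨M, h⟩ => iii_of_iv hν hT hF L hSE hτ h
  tfae_finish

end

end Pool.Agent.W795.HE
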