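import Pool.Agent.W795.HE.FinB

/-!
Project HE: singular times, in the abstract frame.
-/

set_option autoImplicit false

open MeasureTheory Set Filter Topology
open scoped InnerProductSpace

namespace Pool.Agent.W795.HE

open H772R2.NSR (Frame prim_cont grad_unique)
open H772R2.NSG (LH dft Coef ii_of_int)
open Pool.Agent.W795.TQ (FH Univ)
open Pool.Agent.W933.HE (coef dft_sub)

/-- The gradient is essentially bounded near the time `t`. -/
def RegT {K : Type} [NormedAddCommGroup K] (T : ℝ) (z : ℝ → K) (t : ℝ) : Prop :=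
  ∃ δ > (0 : ℝ), ∃ R : ℝ, ∀ᵐ s ∂(volume.restrict (Ioc 0 T)), |s - t| < δ → ‖z s‖ ≤ R

/-- Lower bound of the gradient before a singular time. -/
theorem low_pt (hreg : S_reg) (hsh : S_shift) : ∀ c : ℝ, 0 < c → ∃ ε1 : ℝ, 0 < ε1 ∧
    ∀ (H K : Type) [NormedAddCommGroup H] [InnerProductSpace ℝ H] [CompleteSpace H]
    [NormedAddCommGroup K] [InnerProductSpace ℝ K] [CompleteSpace K]
    (W : Submodule ℝ (H × K)) (m : H → K) (C ν T : ℝ) (F F1 : ℝ → K) (x0 : H)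
    (u : ℝ → H) (z : ℝ → K), Frame W m C → Univ W m c →
    (∀ R : ℝ, TotallyBounded {v : H | ∃ z, (v, z) ∈ W ∧ ‖z‖ ≤ R}) → 0 < ν → 0 < T → FH T F F1 →
    LH W m T (fun _ => ν) F x0 u z → SE ν T F u z →
    ∃ Kc : ℝ, 0 ≤ Kc ∧ ∀ᵐ s ∂(volume.restrict (Ioc 0 T)), ∀ t ∈ Ioc s T, ¬ RegT T z t →
      ε1 * ν ^ (3 / 2 : ℝ) ≤ (‖z s‖ ^ 2 + Kc) * Real.sqrt (t - s) := by
  intro c hc
  obtain ⟨ε1, C2, hε1, hC2, hR⟩ := hreg c hc
  refine ⟨ε1, hε1, ?_⟩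
  intro H K _ _ _ _ _ _ W m C ν T F F1 x0 u z Fr Un hcomp hν hT hF L hSE
  obtain ⟨Φ, hΦ0, hΦ⟩ := force_bd hF
  set G : ℝ := ∫ s in (0 : ℝ)..T, ‖F1 s‖ ^ 2 with hG
  have hG0 : 0 ≤ G := intervalIntegral.integral_nonneg hT.le fun s _ => by positivity
  refine ⟨(Φ ^ 2 + T * G) / ν ^ 2, by positivity, ?_⟩
  filter_upwards [hsh H K W m C ν T F F1 x0 u z Fr hν hT hF L hSE,
    ae_restrict_mem measurableSet_Ioc] with s hs hsm t ht hsing
  obtain ⟨hmem, hs⟩ := hs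
  by_contra hcon
  push Not at hcon
  set X : ℝ := ‖z s‖ ^ 2 + (Φ ^ 2 + T * G) / ν ^ 2 with hX
  have hX0 : 0 ≤ X := by positivity
  have hts : 0 < t - s := by linarith [ht.1]
  -- the length of the interval
  obtain ⟨T', hT'0, hT'1, hT'2, hT'3⟩ : ∃ T' : ℝ, 0 < T' ∧ s + T' ≤ T ∧
      (t < s + T' ∨ (t = T ∧ t = s + T')) ∧ X * Real.sqrt T' ≤ ε1 * ν ^ (3 / 2 : ℝ) := by
    rcases ht.2.eq_or_lt with heq | hlt
    · exact ⟨t - s, hts, by linarith, Or.inr ⟨heq, by ring⟩, hcon.le⟩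
    · have hcont : ContinuousAt (fun r => X * Real.sqrt r) (t - s) := by fun_prop
      have h1 : ∀ᶠ r in 𝓝 (t - s), X * Real.sqrt r < ε1 * ν ^ (3 / 2 : ℝ) :=
        hcont.eventually_lt continuousAt_const hcon
      have h2 : ∀ᶠ r in 𝓝 (t - s), r < T - s := eventually_lt_nhds (by linarith)
      have h3 : ∀ᶠ r in 𝓝[>] (t - s), (X * Real.sqrt r < ε1 * ν ^ (3 / 2 : ℝ) ∧ r < T - s) :=
        (h1.and h2).filter_mono nhdsWithin_le_nhds
      obtain ⟨r, hr1, hr2⟩ := (h3.and self_mem_nhdsWithin).exists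
      have hr2' : t - s < r := hr2
      exact ⟨r, by linarith, by linarith [hr1.2], Or.inl (by linarith), hr1.1.le⟩
  obtain ⟨k1, k2, k3, -⟩ := hs T' hT'0 hT'1
  have hT'T : T' ≤ T := by linarith [hsm.1]
  have hG' : 0 ≤ ∫ r in (0 : ℝ)..T', ‖F1 (s + r)‖ ^ 2 :=
    intervalIntegral.integral_nonneg hT'0.le fun s _ => by positivity
  have hle : (Φ ^ 2 + T' * ∫ r in (0 : ℝ)..T', ‖F1 (s + r)‖ ^ 2) / ν ^ 2
      ≤ (Φ ^ 2 + T * G) / ν ^ 2 := by
    gcongr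
  obtain ⟨-, k4⟩ := hR H K W m C ν T' Φ (fun r => F (s + r)) (fun r => F1 (s + r)) (u s) (z s)
    (fun r => u (s + r)) (fun r => z (s + r)) Fr Un hcomp hν hT'0 k2 hΦ0
    (fun r hr => hΦ _ ⟨by linarith [hsm.1, hr.1], by linarith [hr.2]⟩) hmem k1
    (by
      refine le_trans ?_ hT'3
      gcongr
      rw [hX]
      linarith)
  apply hsing
  -- the bound near `t`
  have hbd : ∀ᵐ r ∂(volume.restrict (Ioc 0 T)), r ∈ Icc s (s + T') →
      ‖z r‖ ≤ Real.sqrt (C2 * (‖z s‖ ^ 2 + (Φ ^ 2 + T' * ∫ r in (0 : ℝ)..T', ‖F1 (s + r)‖ ^ 2)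
        / ν ^ 2)) := by
    filter_upwards [L.mem] with r hr hrm
    obtain ⟨ζ, hζ, hζ2⟩ := k4 (r - s) ⟨by linarith [hrm.1], by linarith [hrm.2]⟩
    rw [add_sub_cancel] at hζ
    have e1 : z r = ζ := grad_unique Fr hr hζ
    rw [e1]
    exact Real.le_sqrt_of_sq_le hζ2
  refine ⟨if t < s + T' then min (t - s) (s + T' - t) else t - s, ?_,
    Real.sqrt (C2 * (‖z s‖ ^ 2 + (Φ ^ 2 + T' * ∫ r in (0 : ℝ)..T', ‖F1 (s + r)‖ ^ 2)
        / ν ^ 2)), ?_⟩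
  · split_ifs with h
    · exact lt_min hts (by linarith)
    · exact hts
  · filter_upwards [hbd, ae_restrict_mem measurableSet_Ioc] with r hr hrm habs
    refine hr ?_
    rw [abs_lt] at habs
    split_ifs at habs with h
    · have h1 := min_le_left (t - s) (s + T' - t)
      have h2 := min_le_right (t - s) (s + T' - t)
      exact ⟨by linarith [habs.1], by linarith [habs.2]⟩
    · rcases hT'2 with h3 | ⟨h3, h4⟩
      · exact absurd h3 h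
      · exact ⟨by linarith [habs.1], by linarith [hrm.2]⟩

/-- Lower bound of the dissipation before a singular time. -/
theorem low_int (hreg : S_reg) (hsh : S_shift) : ∀ c : ℝ, 0 < c → ∃ c1 : ℝ, 0 < c1 ∧
    ∀ (H K : Type) [NormedAddCommGroup H] [InnerProductSpace ℝ H] [CompleteSpace H]
    [NormedAddCommGroup K] [InnerProductSpace ℝ K] [CompleteSpace K]
    (W : Submodule ℝ (H × K)) (m : H → K) (C ν T : ℝ) (F F1 : ℝ → K) (x0 : H)
    (u : ℝ → H) (z : ℝ → K), Frame W m C → Univ W m c →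
    (∀ R : ℝ, TotallyBounded {v : H | ∃ z, (v, z) ∈ W ∧ ‖z‖ ≤ R}) → 0 < ν → 0 < T → FH T F F1 →
    LH W m T (fun _ => ν) F x0 u z → SE ν T F u z →
    ∃ h2 : ℝ, 0 < h2 ∧ ∀ t ∈ Ioc 0 T, ¬ RegT T z t → ∀ h : ℝ, 0 ≤ h → h ≤ h2 → h ≤ t →
      c1 * ν ^ (3 / 2 : ℝ) * Real.sqrt h ≤ ∫ s in (t - h)..t, ‖z s‖ ^ 2 := by
  intro c hc
  obtain ⟨ε1, hε1, hL⟩ := low_pt hreg hsh c hc
  refine ⟨ε1 / 2, by positivity, ?_⟩
  intro H K _ _ _ _ _ _ W m C ν T F F1 x0 u z Fr Un hcomp hν hT hF L hSE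
  obtain ⟨Kc, hK0, hae⟩ := hL H K W m C ν T F F1 x0 u z Fr Un hcomp hν hT hF L hSE
  have hν32 : 0 < ν ^ (3 / 2 : ℝ) := Real.rpow_pos_of_pos hν _
  refine ⟨(ε1 / 2 * ν ^ (3 / 2 : ℝ) / (Kc + 1)) ^ 2, by positivity, ?_⟩
  intro t ht hsing h hh0 hh2 hht
  rcases hh0.eq_or_lt with heq | hh
  · rw [← heq]
    simp
  have hsq : 0 < Real.sqrt h := Real.sqrt_pos.2 hh
  have h1 : Real.sqrt h ≤ ε1 / 2 * ν ^ (3 / 2 : ℝ) / (Kc + 1) := by
    have := Real.sqrt_le_sqrt hh2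
    rwa [Real.sqrt_sq (by positivity)] at this
  have h2 : Kc * Real.sqrt h ≤ ε1 / 2 * ν ^ (3 / 2 : ℝ) := by
    rw [le_div_iff₀ (by positivity)] at h1
    nlinarith
  have h3 : ∫ s in (t - h)..t, (ε1 * ν ^ (3 / 2 : ℝ) / Real.sqrt h - Kc)
      ≤ ∫ s in (t - h)..t, ‖z s‖ ^ 2 := by
    refine intervalIntegral.integral_mono_ae_restrict (by linarith) intervalIntegrable_const
      (ii_of_int (zsq_int L) (by linarith) (by linarith) ht.2) ?_
    have hsub : Icc (t - h) t ⊆ Icc 0 T := Icc_subset_Icc (by linarith) ht.2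
    have hae' : ∀ᵐ s ∂(volume.restrict (Icc (t - h) t)), s ∈ Icc (t - h) t ∧ s ≠ t ∧
        (∀ t ∈ Ioc s T, ¬ RegT T z t →
          ε1 * ν ^ (3 / 2 : ℝ) ≤ (‖z s‖ ^ 2 + Kc) * Real.sqrt (t - s)) := by
      have g1 : ∀ᵐ s ∂(volume.restrict (Icc (t - h) t)), s ≠ t :=
        ae_restrict_of_ae (by simp [ae_iff])
      have g2 : ∀ᵐ s ∂(volume.restrict (Icc 0 T)), (∀ t ∈ Ioc s T, ¬ RegT T z t →
          ε1 * ν ^ (3 / 2 : ℝ) ≤ (‖z s‖ ^ 2 + Kc) * Real.sqrt (t - s)) := by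
        rw [← restrict_Ioc_eq_restrict_Icc]
        exact hae
      filter_upwards [g1, ae_mono (Measure.restrict_mono hsub le_rfl) g2,
        ae_restrict_mem measurableSet_Icc] with s a1 a2 a3
      exact ⟨a3, a1, a2⟩
    filter_upwards [hae'] with s hs
    obtain ⟨hs1, hs2, hs3⟩ := hs
    have hst : s < t := lt_of_le_of_ne hs1.2 hs2
    have h4 := hs3 t ⟨hst, ht.2⟩ hsing
    have h5 : Real.sqrt (t - s) ≤ Real.sqrt h := Real.sqrt_le_sqrt (by linarith [hs1.1])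
    have h6 : (‖z s‖ ^ 2 + Kc) * Real.sqrt (t - s) ≤ (‖z s‖ ^ 2 + Kc) * Real.sqrt h := by gcongr
    have h7 : ε1 * ν ^ (3 / 2 : ℝ) / Real.sqrt h ≤ ‖z s‖ ^ 2 + Kc := by
      rw [div_le_iff₀ hsq]
      linarith
    show ε1 * ν ^ (3 / 2 : ℝ) / Real.sqrt h - Kc ≤ ‖z s‖ ^ 2
    linarith
  refine le_trans ?_ h3
  rw [intervalIntegral.integral_const, smul_eq_mul, sub_sub_cancel]
  have h8 : h = Real.sqrt h * Real.sqrt h := (Real.mul_self_sqrt hh.le).symm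
  have h9 : h * (ε1 * ν ^ (3 / 2 : ℝ) / Real.sqrt h - Kc)
      = ε1 * ν ^ (3 / 2 : ℝ) * Real.sqrt h - Kc * Real.sqrt h * Real.sqrt h := by
    have e1 : h * (ε1 * ν ^ (3 / 2 : ℝ) / Real.sqrt h) = ε1 * ν ^ (3 / 2 : ℝ) * Real.sqrt h := by
      nth_rw 1 [h8]
      field_simp
    have e2 : h * Kc = Kc * Real.sqrt h * Real.sqrt h := by
      nth_rw 1 [h8]
      ring
    rw [mul_sub, e1, e2]
  rw [h9]
  have h10 : Kc * Real.sqrt h * Real.sqrt h ≤ ε1 / 2 * ν ^ (3 / 2 : ℝ) * Real.sqrt h := by gcongr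
  linarith

/-- The box dimension of the singular times with a bounded time modulus. -/
theorem dim_abs (hit : S_it) (htp : S_tp) (hreg : S_reg) (hsh : S_shift) (hdim : S_dim) :
    ∀ c k : ℝ, 0 < c → 0 ≤ k → ∃ θ : ℝ, 0 ≤ θ ∧ θ < 1 / 2 ∧
    ∀ (H K : Type) [NormedAddCommGroup H] [InnerProductSpace ℝ H] [CompleteSpace H]
    [NormedAddCommGroup K] [InnerProductSpace ℝ K] [CompleteSpace K]
    (W : Submodule ℝ (H × K)) (m : H → K) (C ν T : ℝ) (F F1 : ℝ → K) (x0 : H)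
    (u : ℝ → H) (z : ℝ → K), Frame W m C → Univ W m c →
    (∀ R : ℝ, TotallyBounded {v : H | ∃ z, (v, z) ∈ W ∧ ‖z‖ ≤ R}) → 0 < ν → 0 < T → FH T F F1 →
    LH W m T (fun _ => ν) F x0 u z → SE ν T F u z →
    ∀ h0 : ℝ, 0 < h0 → ∃ A : ℝ, 0 < A ∧ ∀ r : ℝ, 0 < r → r ≤ 1 → ∃ P : Finset ℝ,
      (P.card : ℝ) ≤ A * r ^ (-θ) ∧
      {τ : ℝ | τ ∈ Icc h0 T ∧ ¬ RegT T z τ ∧ ((∀ h : ℝ, 0 < h → h ≤ h0 →
        ∫ t in (τ - h)..τ, ‖u t - u τ‖ ^ 2 ≤ k ^ 2 * ν ^ (5 / 2 : ℝ) * h ^ (3 / 2 : ℝ)) ∨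
        ∀ h : ℝ, 0 < h → h ≤ h0 →
          ∫ t in (τ - h)..τ, ‖z t‖ ^ 2 ≤ k * ν ^ (3 / 2 : ℝ) * Real.sqrt h)}
        ⊆ ⋃ p ∈ P, Icc p (p + r) := by
  intro c k hc hk
  obtain ⟨M, hM, hcore⟩ := core hit htp c k hc hk
  obtain ⟨c1, hc1, hlow⟩ := low_int hreg hsh c hc
  obtain ⟨θ, A, hθ0, hθ, hA, hD⟩ := hdim ((M + k) / c1) (by positivity)
  refine ⟨θ, hθ0, hθ, ?_⟩
  intro H K _ _ _ _ _ _ W m C ν T F F1 x0 u z Fr Un hcomp hν hT hF L hSE h0 hh0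
  have hν32 : 0 < ν ^ (3 / 2 : ℝ) := Real.rpow_pos_of_pos hν _
  obtain ⟨h1, hh1, hh10, hup⟩ := hcore H K W m C ν T F F1 x0 u z Fr Un hν hT hF L hSE h0 hh0
  obtain ⟨h2, hh2, hlo⟩ := hlow H K W m C ν T F F1 x0 u z Fr Un hcomp hν hT hF L hSE
  set l : ℝ := min h1 h2 with hl
  have hl0 : 0 < l := lt_min hh1 hh2
  have hl1 : l ≤ h1 := min_le_left _ _
  have hl2 : l ≤ h2 := min_le_right _ _
  set S : Set ℝ := {τ : ℝ | τ ∈ Icc h0 T ∧ ¬ RegT T z τ ∧ ((∀ h : ℝ, 0 < h → h ≤ h0 →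
        ∫ t in (τ - h)..τ, ‖u t - u τ‖ ^ 2 ≤ k ^ 2 * ν ^ (5 / 2 : ℝ) * h ^ (3 / 2 : ℝ)) ∨
        ∀ h : ℝ, 0 < h → h ≤ h0 →
          ∫ t in (τ - h)..τ, ‖z t‖ ^ 2 ≤ k * ν ^ (3 / 2 : ℝ) * Real.sqrt h)} with hS
  set N : ℕ := ⌈T / l⌉₊ with hN
  have hNT : T ≤ N * l := by
    have := Nat.le_ceil (T / l)
    rw [div_le_iff₀ hl0] at this
    exact this
  -- every piece
  have hpiece : ∀ a : ℝ, ∀ r : ℝ, 0 < r → r ≤ l → ∃ P : Finset ℝ,
      (P.card : ℝ) ≤ A * (l / r) ^ θ ∧ S ∩ Icc a (a + l) ⊆ ⋃ p ∈ P, Icc p (p + r) := by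
    intro a r hr hrl
    refine hD a l (S ∩ Icc a (a + l)) hl0 inter_subset_right ?_ r hr hrl
    intro n t ht hlt
    rcases Nat.eq_zero_or_pos n with hn | hn
    · subst hn
      simp
    have hmono : ∀ i j, i ≤ j → j ≤ n → t i ≤ t j := by
      intro i j hij
      induction j, hij using Nat.le_induction with
      | base => exact fun _ => le_rfl
      | succ j hij ih => exact fun hj => (ih (by omega)).trans (hlt j (by omega)).le
    have h0n : t 0 < t n := (hlt 0 hn).trans_le (hmono 1 n hn le_rfl)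
    have htn := ht n le_rfl
    have ht0 := ht 0 (by omega)
    have hlen : t n - t 0 ≤ l := by linarith [htn.2.2, ht0.2.1]
    have e1 : ∑ i ∈ Finset.range n, ∫ s in (t i)..(t (i + 1)), ‖z s‖ ^ 2
        = ∫ s in (t 0)..(t n), ‖z s‖ ^ 2 := by
      refine intervalIntegral.sum_integral_adjacent_intervals (fun i hi => ?_)
      have hi0 := (ht i (by omega)).1.1
      exact ii_of_int (zsq_int L) (by linarith [hi0.1]) (hlt i hi).le (ht (i + 1) (by omega)).1.1.2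
    have e2 : ∑ i ∈ Finset.range n, c1 * ν ^ (3 / 2 : ℝ) * Real.sqrt (t (i + 1) - t i)
        ≤ ∑ i ∈ Finset.range n, ∫ s in (t i)..(t (i + 1)), ‖z s‖ ^ 2 := by
      refine Finset.sum_le_sum fun i hi => ?_
      have hi' := Finset.mem_range.1 hi
      have hi1 := ht (i + 1) (by omega)
      have hi0 := ht i (by omega)
      have hlti := hlt i hi'
      have h3 : t (i + 1) - t i ≤ l := by linarith [hi1.2.2, hi0.2.1]
      have h4 := hlo (t (i + 1)) ⟨by linarith [hi1.1.1.1], hi1.1.1.2⟩ hi1.1.2.1 (t (i + 1) - t i)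
        (by linarith) (h3.trans hl2) (by linarith [hi0.1.1.1])
      rwa [sub_sub_cancel] at h4
    have e3 : ∫ s in (t n - (t n - t 0))..(t n), ‖z s‖ ^ 2
        ≤ (M + k) * ν ^ (3 / 2 : ℝ) * Real.sqrt (t n - t 0) := by
      rcases htn.1.2.2 with hA1 | hA1
      · refine (hup (t n) htn.1.1.1 htn.1.1.2 hA1 (t n - t 0) (by linarith)
          (hlen.trans hl1)).1.trans ?_
        gcongr
        linarith
      · refine (hA1 (t n - t 0) (by linarith) (hlen.trans (hl1.trans hh10))).trans ?_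
        gcongr
        linarith
    rw [sub_sub_cancel] at e3
    rw [← Finset.mul_sum] at e2
    rw [e1] at e2
    have e4 := e2.trans e3
    have hpos : 0 < c1 * ν ^ (3 / 2 : ℝ) := by positivity
    have e5 : (M + k) * ν ^ (3 / 2 : ℝ) * Real.sqrt (t n - t 0)
        = c1 * ν ^ (3 / 2 : ℝ) * ((M + k) / c1 * Real.sqrt (t n - t 0)) := by
      field_simp
    rw [e5] at e4
    exact le_of_mul_le_mul_left e4 hpos
  -- all pieces
  have hall : ∀ r : ℝ, 0 < r → r ≤ l → ∃ P : Finset ℝ,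
      (P.card : ℝ) ≤ N * (A * (l / r) ^ θ) ∧ S ⊆ ⋃ p ∈ P, Icc p (p + r) := by
    intro r hr hrl
    choose P hP1 hP2 using fun a => hpiece a r hr hrl
    refine ⟨(Finset.range N).biUnion fun i => P (i * l), ?_, ?_⟩
    · have h3 : (((Finset.range N).biUnion fun i : ℕ => P (i * l)).card : ℝ)
          ≤ ∑ i ∈ Finset.range N, ((P (i * l)).card : ℝ) := by
        exact_mod_cast Finset.card_biUnion_le
      refine h3.trans ?_
      have h4 : ∑ i ∈ Finset.range N, ((P ((i : ℝ) * l)).card : ℝ)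
          ≤ ∑ _i ∈ Finset.range N, A * (l / r) ^ θ :=
        Finset.sum_le_sum fun i _ => hP1 ((i : ℝ) * l)
      rw [Finset.sum_const, Finset.card_range, nsmul_eq_mul] at h4
      exact h4
    · intro τ hτ
      have hτ0 : 0 < τ := hh0.trans_le hτ.1.1
      -- the index
      set i : ℕ := ⌈τ / l⌉₊ - 1 with hi
      have hc1 : 0 < ⌈τ / l⌉₊ := Nat.ceil_pos.2 (by positivity)
      have hi1 : (i : ℝ) + 1 = (⌈τ / l⌉₊ : ℝ) := by
        have : i + 1 = ⌈τ / l⌉₊ := by omega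
        exact_mod_cast this
      have h3 : τ ≤ ((i : ℝ) + 1) * l := by
        rw [hi1]
        have := Nat.le_ceil (τ / l)
        rwa [div_le_iff₀ hl0] at this
      have h4 : (i : ℝ) * l ≤ τ := by
        have h5 : (⌈τ / l⌉₊ : ℝ) < τ / l + 1 := Nat.ceil_lt_add_one (by positivity)
        have h6 : (i : ℝ) < τ / l := by linarith
        rw [lt_div_iff₀ hl0] at h6
        exact h6.le
      have h5 : i < N := by
        have h6 : ⌈τ / l⌉₊ ≤ N := Nat.ceil_mono (by gcongr; exact hτ.1.2)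
        omega
      have h6 := hP2 (i * l) ⟨hτ, h4, by linarith⟩
      rw [mem_iUnion₂] at h6 ⊢
      obtain ⟨p, hp, hp2⟩ := h6
      exact ⟨p, Finset.mem_biUnion.2 ⟨i, Finset.mem_range.2 h5, hp⟩, hp2⟩
  have hlθ : 0 < l ^ θ := Real.rpow_pos_of_pos hl0 _
  refine ⟨(N + 1) * (A * (l ^ θ + 1)), by positivity, ?_⟩
  intro r hr hr1
  have hrθ : 0 < r ^ (-θ) := Real.rpow_pos_of_pos hr _
  have hrθ1 : 1 ≤ r ^ (-θ) := Real.one_le_rpow_of_pos_of_le_one_of_nonpos hr hr1 (by linarith)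
  by_cases hrl : r ≤ l
  · obtain ⟨P, hP1, hP2⟩ := hall r hr hrl
    refine ⟨P, hP1.trans ?_, hP2⟩
    have e1 : (l / r) ^ θ = l ^ θ * r ^ (-θ) := by
      rw [Real.div_rpow hl0.le hr.le, Real.rpow_neg hr.le]
      rfl
    rw [e1]
    calc (N : ℝ) * (A * (l ^ θ * r ^ (-θ))) ≤ (N + 1) * (A * ((l ^ θ + 1) * r ^ (-θ))) := by
          gcongr <;> linarith
      _ = _ := by ring
  · push Not at hrl
    obtain ⟨P, hP1, hP2⟩ := hall l hl0 le_rfl
    refine ⟨P, hP1.trans ?_, hP2.trans ?_⟩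
    · rw [div_self hl0.ne', Real.one_rpow]
      calc (N : ℝ) * (A * 1) ≤ (N + 1) * (A * (l ^ θ + 1)) := by
            gcongr <;> linarith
        _ ≤ (N + 1) * (A * (l ^ θ + 1)) * r ^ (-θ) :=
            le_mul_of_one_le_right (by positivity) hrθ1
    · exact iUnion₂_mono fun p _ => Icc_subset_Icc_right (by linarith)

end Pool.Agent.W795.HE
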