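import Pool.Agent.W795.HE.FinC

/-!
Project HE: the energy equality, in the abstract frame.
-/

set_option autoImplicit false

open MeasureTheory Set Filter Topology
open scoped InnerProductSpace

namespace Pool.Agent.W795.HE

open H772R2.NSR (Frame prim_cont grad_unique)
open H772R2.NSG (LH dft Coef ii_of_int)
open Pool.Agent.W795.TQ (FH Univ)
open Pool.Agent.W933.HE (coef dft_sub)

/-- The energy defect is constant on a short interval after almost every time. -/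
theorem const_ae (hreg : S_reg) (hsh : S_shift) : ∀ c : ℝ, 0 < c → ∃ ε1 : ℝ, 0 < ε1 ∧
    ∀ (H K : Type) [NormedAddCommGroup H] [InnerProductSpace ℝ H] [CompleteSpace H]
    [NormedAddCommGroup K] [InnerProductSpace ℝ K] [CompleteSpace K]
    (W : Submodule ℝ (H × K)) (m : H → K) (C ν T : ℝ) (F F1 : ℝ → K) (x0 : H)
    (u : ℝ → H) (z : ℝ → K), Frame W m C → Univ W m c →
    (∀ R : ℝ, TotallyBounded {v : H | ∃ z, (v, z) ∈ W ∧ ‖z‖ ≤ R}) → 0 < ν → 0 < T → FH T F F1 →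
    LH W m T (fun _ => ν) F x0 u z → SE ν T F u z →
    ∃ Kc : ℝ, 0 ≤ Kc ∧ ∀ᵐ s ∂(volume.restrict (Ioc 0 T)), ∀ t ∈ Icc s T,
      (t - s) * (‖z s‖ ^ 2 + Kc) ^ 2 ≤ (ε1 * ν ^ (3 / 2 : ℝ)) ^ 2 →
      dft (fun _ => ν) F x0 u z t = dft (fun _ => ν) F x0 u z s := by
  intro c hc
  obtain ⟨ε1, C2, hε1, hC2, hR⟩ := hreg c hc
  refine ⟨ε1, hε1, ?_⟩
  intro H K _ _ _ _ _ _ W m C ν T F F1 x0 u z Fr Un hcomp hν hT hF L hSE
  obtain ⟨Φ, hΦ0, hΦ⟩ := force_bd hF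
  have hν32 : 0 < ν ^ (3 / 2 : ℝ) := Real.rpow_pos_of_pos hν _
  set G : ℝ := ∫ s in (0 : ℝ)..T, ‖F1 s‖ ^ 2 with hG
  have hG0 : 0 ≤ G := intervalIntegral.integral_nonneg hT.le fun s _ => by positivity
  refine ⟨(Φ ^ 2 + T * G) / ν ^ 2, by positivity, ?_⟩
  filter_upwards [hsh H K W m C ν T F F1 x0 u z Fr hν hT hF L hSE,
    ae_restrict_mem measurableSet_Ioc] with s hs hsm t ht hsmall
  obtain ⟨hmem, hs⟩ := hs
  rcases ht.1.eq_or_lt with heq | hlt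
  · rw [heq]
  set X : ℝ := ‖z s‖ ^ 2 + (Φ ^ 2 + T * G) / ν ^ 2 with hX
  have hX0 : 0 ≤ X := by positivity
  have hts : 0 < t - s := by linarith
  have hXs : X * Real.sqrt (t - s) ≤ ε1 * ν ^ (3 / 2 : ℝ) := by
    have h1 : (X * Real.sqrt (t - s)) ^ 2 ≤ (ε1 * ν ^ (3 / 2 : ℝ)) ^ 2 := by
      rw [mul_pow, Real.sq_sqrt hts.le]
      linarith
    exact (pow_le_pow_iff_left₀ (by positivity) (by positivity) (by norm_num)).mp h1
  obtain ⟨k1, k2, k3, k5⟩ := hs (t - s) hts (by linarith [ht.2])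
  have hT'T : t - s ≤ T := by linarith [hsm.1, ht.2]
  have hG' : 0 ≤ ∫ r in (0 : ℝ)..(t - s), ‖F1 (s + r)‖ ^ 2 :=
    intervalIntegral.integral_nonneg hts.le fun s _ => by positivity
  have hle : (Φ ^ 2 + (t - s) * ∫ r in (0 : ℝ)..(t - s), ‖F1 (s + r)‖ ^ 2) / ν ^ 2
      ≤ (Φ ^ 2 + T * G) / ν ^ 2 := by
    gcongr
  obtain ⟨k4, -⟩ := hR H K W m C ν (t - s) Φ (fun r => F (s + r)) (fun r => F1 (s + r)) (u s)
    (z s) (fun r => u (s + r)) (fun r => z (s + r)) Fr Un hcomp hν hts k2 hΦ0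
    (fun r hr => hΦ _ ⟨by linarith [hsm.1, hr.1], by linarith [hr.2, ht.2]⟩) hmem k1
    (by
      refine le_trans ?_ hXs
      gcongr
      rw [hX]
      linarith)
  have h6 := k5 (t - s) ⟨hts.le, le_rfl⟩
  rw [k4 (t - s) ⟨hts.le, le_rfl⟩, add_sub_cancel] at h6
  linarith

/-- Theorem B, abstract form. -/
theorem eq_abs (hit : S_it) (htp : S_tp) (hreg : S_reg) (hsh : S_shift) (hcont : S_cont)
    (hmeas : S_meas) : ∀ c : ℝ, 0 < c →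
    ∀ (H K : Type) [NormedAddCommGroup H] [InnerProductSpace ℝ H] [CompleteSpace H]
    [NormedAddCommGroup K] [InnerProductSpace ℝ K] [CompleteSpace K]
    (W : Submodule ℝ (H × K)) (m : H → K) (C ν T : ℝ) (F F1 : ℝ → K) (x0 : H)
    (u : ℝ → H) (z : ℝ → K), Frame W m C → Univ W m c →
    (∀ R : ℝ, TotallyBounded {v : H | ∃ z, (v, z) ∈ W ∧ ‖z‖ ≤ R}) → 0 < ν → 0 < T → FH T F F1 →
    LH W m T (fun _ => ν) F x0 u z → SE ν T F u z → x0 ∈ closure {v : H | ∃ ζ, (v, ζ) ∈ W} →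
    (∀ t ∈ Ioc 0 T, Tendsto u (𝓝[<] t) (𝓝 (u t))) →
    ∀ N : Set ℝ, N.Countable → (∀ τ ∈ Ioc 0 T, τ ∉ N → ∃ M : ℝ, ∀ t ∈ Icc 0 τ,
      ∫ s in t..τ, ‖u s - u τ‖ ^ 2 ≤ M * (τ - t) ^ (3 / 2 : ℝ)) →
    ∀ t ∈ Icc 0 T, ‖u t‖ ^ 2 / 2 + ν * (∫ s in (0 : ℝ)..t, ‖z s‖ ^ 2)
      = ‖u 0‖ ^ 2 / 2 + ∫ s in (0 : ℝ)..t, ⟪F s, z s⟫_ℝ := by
  intro c hc H K _ _ _ _ _ _ W m C ν T F F1 x0 u z Fr Un hcomp hν hT hF L hSE hx0 hleft N hN hmod
  have hFc : ContinuousOn F (Icc 0 T) := prim_cont hF.memLp hF.prim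
  have Co : Coef ν T (fun _ => ν) F := coef hFc
  obtain ⟨ε1, hε1, hcc⟩ := const_ae hreg hsh c hc
  obtain ⟨Kc, hK0, hae⟩ := hcc H K W m C ν T F F1 x0 u z Fr Un hcomp hν hT hF L hSE
  have hν32 : 0 < ν ^ (3 / 2 : ℝ) := Real.rpow_pos_of_pos hν _
  obtain ⟨hDc, hDm⟩ := hcont H K W m C ν T F x0 u z Fr hν hT hFc L hSE hx0 hleft
  set D : ℝ → ℝ := dft (fun _ => ν) F x0 u z with hD
  have hDT : D T = D 0 := by
    refine hmeas T ((ε1 * ν ^ (3 / 2 : ℝ)) ^ 2) Kc D (fun s => ‖z s‖ ^ 2) N hT (by positivity)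
      hK0 hN hDc hDm (fun s => by positivity) (zsq_int L) hae ?_
    intro τ hτ hτN
    obtain ⟨M, hM⟩ := hmod τ hτ hτN
    obtain ⟨M', hM'0, hM'⟩ := iii_of_ii hit htp Fr Un hc hν hT hF L hSE hτ hM
    exact ⟨M', 1, one_pos, fun s hs _ => (hM' s hs).2⟩
  have hD0 : D 0 = 0 := by
    simp [hD, dft, L.init]
  intro t ht
  have h1 : D t = 0 := by
    refine le_antisymm ?_ (dft_nonneg Co L ht)
    have := hDm ht ⟨hT.le, le_rfl⟩ ht.2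
    rw [hDT, hD0] at this
    exact this
  have h2 : D t = ‖x0‖ ^ 2 / 2 + (∫ s in (0 : ℝ)..t, ⟪F s, z s⟫_ℝ) - ‖u t‖ ^ 2 / 2
    - ∫ s in (0 : ℝ)..t, ν * ‖z s‖ ^ 2 := rfl
  rw [intervalIntegral.integral_const_mul, h1] at h2
  rw [L.init]
  linarith

end Pool.Agent.W795.HE
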