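import Pool.Agent.H772R2.NSR.PubR

/-!
Public definitions: strong energy inequality and regular times.
-/

set_option autoImplicit false

open MeasureTheory Set
open scoped InnerProductSpace

namespace Pool.Agent.W795.HE

open H772R2.NS.Pub

/-- The strong energy inequality: for almost every `s ∈ (0,T]` and all `t ∈ [s,T]`,
`‖u(t)‖²/2 + ν ∫_s^t ‖∇u‖² ≤ ‖u(s)‖²/2 + ∫_s^t ⟨f, u⟩`; here `G = ∇u` and `⟨f, u⟩ = (F, ∇u)`. -/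
def StrongEnergy {Ω : Set R3} (ν T : ℝ) (F : ℝ → L2 Ω Mat) (u : ℝ → L2 Ω R3)
    (G : ℝ → L2 Ω Mat) : Prop :=
  ∀ᵐ s ∂(volume.restrict (Ioc 0 T)), ∀ t ∈ Icc s T,
    ‖u t‖ ^ 2 / 2 + ν * (∫ r in s..t, ‖G r‖ ^ 2) ≤ ‖u s‖ ^ 2 / 2 + ∫ r in s..t, ⟪F r, G r⟫_ℝ

/-- `t` is a regular time: `‖G(s)‖`, where `G = ∇u`, is essentially bounded for `s ∈ (0,T]` near
`t`. -/
def RegularTime {Ω : Set R3} (T : ℝ) (G : ℝ → L2 Ω Mat) (t : ℝ) : Prop :=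
  ∃ δ > (0 : ℝ), ∃ R : ℝ, ∀ᵐ s ∂(volume.restrict (Ioc 0 T)), |s - t| < δ → ‖G s‖ ≤ R

end Pool.Agent.W795.HE
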