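import Pool.Agent.W795.HE.FinC
import Pool.Agent.W795.HE.PubDef
import Pool.Agent.W795.TQ.DPub

/-!
Project HE: the results in terms of the public definitions.
-/

set_option autoImplicit false

open MeasureTheory Set Filter Topology
open scoped InnerProductSpace ENNReal ContDiff

namespace Pool.Agent.W795.HE

open H772R2.NS H772R2.NS.Pub H772R2.NSR H772R2.NSG
open Pool.Agent.W795.TQ

theorem pub_lh {Ω : Set E3} (hΩ : IsOpen Ω) (hb : Bornology.IsBounded Ω) {ν T : ℝ}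
    {F F' : ℝ → L2M Ω} (hF1 : MemLp F' 2 (volume.restrict (Ioc 0 T)))
    (hF : ∀ a b, 0 ≤ a → a ≤ b → b ≤ T → F b - F a = ∫ s in a..b, F' s)
    {u : ℝ → L2V Ω} {z : ℝ → L2M Ω} (L : IsLerayHopf (show Set R3 from Ω) ν T F u z) :
    ∃ C : ℝ, Frame (graphW Ω) (tensL (Ω := Ω)) C ∧
      LH (graphW Ω) (tensL (Ω := Ω)) T (fun _ => ν) F (u 0) u z := by
  obtain ⟨C, Fr⟩ := exists_frame hΩ hb
  refine ⟨C, Fr, lh_mid hΩ (prim_cont hF1 hF) Fr L.meas ?_ L.gradL2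
    (fun φ hφ t ht => L.eqn φ ((isTest_iff φ).mpr hφ) t ht) L.energy⟩
  filter_upwards [L.grad] with t ht
  exact mem_pub.mpr ht

/-- Theorem A. -/
theorem a_mid (hit : S_it) (htp : S_tp) (hgrw : S_grw) (hun : S_univ) :
    ∀ (Ω : Set E3), IsOpen Ω → Bornology.IsBounded Ω → ∀ (ν T : ℝ), 0 < ν → 0 < T →
    ∀ (F F' : ℝ → L2M Ω), MemLp F' 2 (volume.restrict (Ioc 0 T)) →
    (∀ a b, 0 ≤ a → a ≤ b → b ≤ T → F b - F a = ∫ s in a..b, F' s) →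
    ∀ (u : ℝ → L2V Ω) (z : ℝ → L2M Ω), IsLerayHopf (show Set R3 from Ω) ν T F u z →
    StrongEnergy (Ω := (show Set R3 from Ω)) ν T F u z → ∀ τ ∈ Ioc 0 T,
    List.TFAE [
      ∃ M : ℝ, ∀ t ∈ Icc 0 τ, ‖u t - u τ‖ ≤ M * (τ - t) ^ (1 / 4 : ℝ),
      ∃ M : ℝ, ∀ t ∈ Icc 0 τ, ∫ s in t..τ, ‖u s - u τ‖ ^ 2 ≤ M * (τ - t) ^ (3 / 2 : ℝ),
      ∃ M : ℝ, ∀ t ∈ Icc 0 τ, ∫ s in t..τ, ‖z s‖ ^ 2 ≤ M * Real.sqrt (τ - t),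
      ∃ M : ℝ, ∀ t ∈ Icc 0 τ, ‖u t‖ ^ 2 - ‖u τ‖ ^ 2 ≤ M * Real.sqrt (τ - t)] := by
  obtain ⟨c, hc, hU⟩ := hun
  intro Ω hΩ hb ν T hν hT F F' hF1 hF u z L hSE τ hτ
  obtain ⟨C, Fr, hLH⟩ := pub_lh hΩ hb hF1 hF L
  exact tfae_abs hit htp hgrw Fr (hU _ hΩ) hc hν hT ⟨hF1, hF⟩ hLH hSE hτ

/-- Theorem C. -/
theorem c_mid (hit : S_it) (htp : S_tp) (hreg : S_reg) (hsh : S_shift) (hdim : S_dim)
    (hun : S_univ) : ∀ k : ℝ, 0 ≤ k → ∃ θ : ℝ, 0 ≤ θ ∧ θ < 1 / 2 ∧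
    ∀ (Ω : Set E3), IsOpen Ω → Bornology.IsBounded Ω → ∀ (ν T : ℝ), 0 < ν → 0 < T →
    ∀ (F F' : ℝ → L2M Ω), MemLp F' 2 (volume.restrict (Ioc 0 T)) →
    (∀ a b, 0 ≤ a → a ≤ b → b ≤ T → F b - F a = ∫ s in a..b, F' s) →
    ∀ (u : ℝ → L2V Ω) (z : ℝ → L2M Ω), IsLerayHopf (show Set R3 from Ω) ν T F u z →
    StrongEnergy (Ω := (show Set R3 from Ω)) ν T F u z →
    ∀ h0 : ℝ, 0 < h0 → ∃ A : ℝ, ∀ r : ℝ, 0 < r → r ≤ 1 → ∃ P : Finset ℝ,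
      (P.card : ℝ) ≤ A * r ^ (-θ) ∧
      {τ : ℝ | τ ∈ Icc h0 T ∧ ¬ RegularTime (Ω := (show Set R3 from Ω)) T z τ ∧
        ((∀ h : ℝ, 0 < h → h ≤ h0 →
          ∫ t in (τ - h)..τ, ‖u t - u τ‖ ^ 2 ≤ k ^ 2 * ν ^ (5 / 2 : ℝ) * h ^ (3 / 2 : ℝ)) ∨
        ∀ h : ℝ, 0 < h → h ≤ h0 →
          ∫ t in (τ - h)..τ, ‖z t‖ ^ 2 ≤ k * ν ^ (3 / 2 : ℝ) * Real.sqrt h)}
        ⊆ ⋃ p ∈ P, Icc p (p + r) := by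
  obtain ⟨c, hc, hU⟩ := hun
  intro k hk
  obtain ⟨θ, hθ0, hθ, h⟩ := dim_abs hit htp hreg hsh hdim c k hc hk
  refine ⟨θ, hθ0, hθ, ?_⟩
  intro Ω hΩ hb ν T hν hT F F' hF1 hF u z L hSE h0 hh0
  obtain ⟨C, Fr, hLH⟩ := pub_lh hΩ hb hF1 hF L
  obtain ⟨A, -, hA⟩ := h (L2V Ω) (L2M Ω) (graphW Ω) tensL C ν T F F' (u 0) u z Fr (hU _ hΩ)
    (rellich_W hΩ hb) hν hT ⟨hF1, hF⟩ hLH hSE h0 hh0
  exact ⟨A, hA⟩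

end Pool.Agent.W795.HE
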