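import Pool.Agent.W795.HE.FinD
import Pool.Agent.W795.HE.Pub

/-!
Project HE: the energy equality, in terms of the public definitions.
-/

set_option autoImplicit false

open MeasureTheory Set Filter Topology
open scoped InnerProductSpace ENNReal ContDiff

namespace Pool.Agent.W795.HE

open H772R2.NS H772R2.NS.Pub H772R2.NSR H772R2.NSG
open Pool.Agent.W795.TQ

/-- Theorem B. -/
theorem b_mid (hit : S_it) (htp : S_tp) (hgrw : S_grw) (hreg : S_reg) (hsh : S_shift)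
    (hcont : S_cont) (hmeas : S_meas) (hun : S_univ) :
    ∀ (Ω : Set E3), IsOpen Ω → Bornology.IsBounded Ω → ∀ (ν T : ℝ), 0 < ν → 0 < T →
    ∀ (F F' : ℝ → L2M Ω), MemLp F' 2 (volume.restrict (Ioc 0 T)) →
    (∀ a b, 0 ≤ a → a ≤ b → b ≤ T → F b - F a = ∫ s in a..b, F' s) →
    ∀ (u : ℝ → L2V Ω) (z : ℝ → L2M Ω), IsLerayHopf (show Set R3 from Ω) ν T F u z →
    StrongEnergy (Ω := (show Set R3 from Ω)) ν T F u z →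
    u 0 ∈ closure {v : L2V Ω | ∃ g : L2M Ω, (v, g) ∈ graphW Ω} →
    (∀ t ∈ Ioc 0 T, Tendsto u (𝓝[<] t) (𝓝 (u t))) →
    ∀ N : Set ℝ, N.Countable → (∀ τ ∈ Ioc 0 T, τ ∉ N →
      (∃ M : ℝ, ∀ t ∈ Icc 0 τ, ∫ s in t..τ, ‖u s - u τ‖ ^ 2 ≤ M * (τ - t) ^ (3 / 2 : ℝ)) ∨
      ∃ M : ℝ, ∀ t ∈ Icc 0 τ, ∫ s in t..τ, ‖z s‖ ^ 2 ≤ M * Real.sqrt (τ - t)) →
    ∀ t ∈ Icc 0 T, ‖u t‖ ^ 2 / 2 + ν * (∫ s in (0 : ℝ)..t, ‖z s‖ ^ 2)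
      = ‖u 0‖ ^ 2 / 2 + ∫ s in (0 : ℝ)..t, ⟪F s, z s⟫_ℝ := by
  intro Ω hΩ hb ν T hν hT F F' hF1 hF u z L hSE hu0 hleft N hN hmod
  obtain ⟨C, Fr, hLH⟩ := pub_lh hΩ hb hF1 hF L
  have hA := a_mid hit htp hgrw hun Ω hΩ hb ν T hν hT F F' hF1 hF u z L hSE
  obtain ⟨c, hc, hU⟩ := hun
  refine eq_abs hit htp hreg hsh hcont hmeas c hc (L2V Ω) (L2M Ω) (graphW Ω) tensL C ν T F F'
    (u 0) u z Fr (hU _ hΩ) (rellich_W hΩ hb) hν hT ⟨hF1, hF⟩ hLH hSE hu0 hleft N hN ?_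
  intro τ hτ hτN
  rcases hmod τ hτ hτN with h | h
  · exact h
  · exact ((hA τ hτ).out 2 1).mp h

end Pool.Agent.W795.HE
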