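import Pool.Agent.W795.TQ.DStm
import Pool.Agent.H772R2.NSG.Rel

/-!
Leray-Hopf solutions with values in `L²` which are Hoelder continuous of order `1/4` in time
(project HE): statements.
-/

set_option autoImplicit false

open MeasureTheory Set
open scoped InnerProductSpace

namespace Pool.Agent.W795.HE

open H772R2.NSR (Frame)
open H772R2.NSG (LH dft)
open Pool.Agent.W795.TQ (Str FH Univ)

/-! ### real analysis -/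

/-- HE-IT: from `∫ d² ≤ k² h^{3/2}` for all small `h` to `Ψ(τ) - Ψ(τ - h) ≤ M √h` for all small
`h`, any `k`; `M` depends on `C`, `k` only. -/
def S_it : Prop := ∀ C k : ℝ, 0 ≤ C → 0 ≤ k → ∃ M : ℝ, 0 < M ∧
  ∀ L E h0 : ℝ, 0 ≤ L → 0 ≤ E → 0 < h0 → ∃ h1 : ℝ, 0 < h1 ∧ h1 ≤ h0 ∧
  ∀ (τ : ℝ) (y d Ψ : ℝ → ℝ), (∀ t, 0 ≤ y t) → (∀ t, 0 ≤ d t) →
    IntegrableOn y (Ioo (τ - h0) τ) → IntegrableOn (fun t => d t ^ 2) (Ioo (τ - h0) τ) →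
    d τ = 0 →
    (∀ᵐ a ∂(volume.restrict (Ioo (τ - h0) τ)), ∀ b ∈ Icc a τ, ∫ s in a..b, y s ≤ Ψ b - Ψ a) →
    (∀ᵐ a ∂(volume.restrict (Ioo (τ - h0) τ)), Ψ τ - Ψ a ≤ E) →
    (∀ᵐ t1 ∂(volume.restrict (Ioo (τ - h0) τ)), ∀ a ∈ Ioc (τ - h0) τ, ∀ b ∈ Ioc (τ - h0) τ,
      a ≤ b → Ψ b - Ψ a ≤
        C * (∫ s in a..b, (y t1 + L + (y t1 ^ 2 + L) * (d s ^ 2 + d t1 ^ 2)))
          + C * ((d a + d b) * (d a + d b + d t1))) →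
    (∀ h : ℝ, 0 < h → h ≤ h0 → ∫ t in (τ - h)..τ, d t ^ 2 ≤ k ^ 2 * h ^ (3 / 2 : ℝ)) →
    ∀ h : ℝ, 0 < h → h ≤ h1 →
      ∫ t in (τ - h)..τ, y t ≤ M * Real.sqrt h ∧ Ψ τ - Ψ (τ - h) ≤ M * Real.sqrt h

/-- HE-MEAS: a continuous nondecreasing function which is constant near the times at which `y` is
small and which is left Hoelder continuous of order `1/2` at all but countably many points is
constant. -/
def S_meas : Prop := ∀ (T c K : ℝ) (D y : ℝ → ℝ) (N : Set ℝ), 0 < T → 0 < c → 0 ≤ K →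
  N.Countable → ContinuousOn D (Icc 0 T) → MonotoneOn D (Icc 0 T) → (∀ t, 0 ≤ y t) →
  IntegrableOn y (Ioc 0 T) →
  (∀ᵐ s ∂(volume.restrict (Ioc 0 T)), ∀ t ∈ Icc s T, (t - s) * (y s + K) ^ 2 ≤ c → D t = D s) →
  (∀ t ∈ Ioc 0 T, t ∉ N → ∃ M h0 : ℝ, 0 < h0 ∧ ∀ s ∈ Icc 0 t, t - h0 < s →
    D t - D s ≤ M * Real.sqrt (t - s)) →
  D T = D 0

/-- HE-DIM: a set whose gaps satisfy `∑ |gap|^{1/2} ≤ κ (diameter)^{1/2}` on all pieces has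
box dimension less than `1/2`. -/
def S_dim : Prop := ∀ κ : ℝ, 0 ≤ κ → ∃ θ A : ℝ, 0 ≤ θ ∧ θ < 1 / 2 ∧ 0 < A ∧
  ∀ (a l : ℝ) (S : Set ℝ), 0 < l → S ⊆ Icc a (a + l) →
    (∀ (n : ℕ) (t : ℕ → ℝ), (∀ i ≤ n, t i ∈ S) → (∀ i < n, t i < t (i + 1)) →
      ∑ i ∈ Finset.range n, Real.sqrt (t (i + 1) - t i) ≤ κ * Real.sqrt (t n - t 0)) →
    ∀ r : ℝ, 0 < r → r ≤ l → ∃ P : Finset ℝ, (P.card : ℝ) ≤ A * (l / r) ^ θ ∧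
      S ⊆ ⋃ p ∈ P, Icc p (p + r)

/-! ### the Navier-Stokes equations in the abstract frame -/

/-- The energy inequality, starting at almost every time. -/
def SE {H K : Type} [NormedAddCommGroup H] [InnerProductSpace ℝ H]
    [NormedAddCommGroup K] [InnerProductSpace ℝ K] (ν T : ℝ) (F : ℝ → K) (u : ℝ → H)
    (z : ℝ → K) : Prop :=
  ∀ᵐ s ∂(volume.restrict (Ioc 0 T)), ∀ t ∈ Icc s T,
    ‖u t‖ ^ 2 / 2 + ν * (∫ r in s..t, ‖z r‖ ^ 2) ≤ ‖u s‖ ^ 2 / 2 + ∫ r in s..t, ⟪F r, z r⟫_ℝ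

/-- HE-CMP: every `(x0, z0) ∈ W` is approximated in `H` by compatible initial values, with a
bound of the gradient. -/
def S_cmp : Prop := ∀ c : ℝ, 0 < c → ∃ C1 : ℝ, 0 < C1 ∧
  ∀ (H K : Type) [NormedAddCommGroup H] [InnerProductSpace ℝ H] [CompleteSpace H]
    [NormedAddCommGroup K] [InnerProductSpace ℝ K] [CompleteSpace K]
    (W : Submodule ℝ (H × K)) (m : H → K) (C ν : ℝ) (F0 : K) (x0 : H) (z0 : K) (ε : ℝ),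
    Frame W m C → Univ W m c → 0 < ν → (x0, z0) ∈ W → 0 < ε →
    ∃ (x g : H) (ζ : K), (x, ζ) ∈ W ∧
      (∀ p ∈ W, ⟪F0 - ν • ζ + m x, p.2⟫_ℝ = ⟪g, p.1⟫_ℝ) ∧ ‖x - x0‖ ≤ ε ∧
      ‖ζ‖ ^ 2 ≤ C1 * (‖z0‖ ^ 2 + ‖F0‖ ^ 2 / ν ^ 2)

/-- HE-REG: a Leray-Hopf solution with initial value in `V` stays bounded in `V` and satisfies the
energy equality on a short time interval. -/
def S_reg : Prop := ∀ c : ℝ, 0 < c → ∃ ε1 C2 : ℝ, 0 < ε1 ∧ 0 < C2 ∧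
  ∀ (H K : Type) [NormedAddCommGroup H] [InnerProductSpace ℝ H] [CompleteSpace H]
    [NormedAddCommGroup K] [InnerProductSpace ℝ K] [CompleteSpace K]
    (W : Submodule ℝ (H × K)) (m : H → K) (C ν T Φ : ℝ) (F F1 : ℝ → K) (x0 : H) (z0 : K)
    (u : ℝ → H) (z : ℝ → K), Frame W m C → Univ W m c →
    (∀ R : ℝ, TotallyBounded {v : H | ∃ z, (v, z) ∈ W ∧ ‖z‖ ≤ R}) →
    0 < ν → 0 < T → FH T F F1 → 0 ≤ Φ → (∀ t ∈ Icc 0 T, ‖F t‖ ≤ Φ) → (x0, z0) ∈ W →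
    LH W m T (fun _ => ν) F x0 u z →
    (‖z0‖ ^ 2 + (Φ ^ 2 + T * ∫ s in (0 : ℝ)..T, ‖F1 s‖ ^ 2) / ν ^ 2) * Real.sqrt T
      ≤ ε1 * ν ^ (3 / 2 : ℝ) →
    (∀ t ∈ Icc 0 T, dft (fun _ => ν) F x0 u z t = 0) ∧
    ∀ t ∈ Icc 0 T, ∃ ζ, (u t, ζ) ∈ W ∧
      ‖ζ‖ ^ 2 ≤ C2 * (‖z0‖ ^ 2 + (Φ ^ 2 + T * ∫ s in (0 : ℝ)..T, ‖F1 s‖ ^ 2) / ν ^ 2)

/-- HE-SHIFT: Leray-Hopf solutions restarted at almost every time. -/
def S_shift : Prop := ∀ (H K : Type) [NormedAddCommGroup H] [InnerProductSpace ℝ H]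
    [CompleteSpace H] [NormedAddCommGroup K] [InnerProductSpace ℝ K] [CompleteSpace K]
    (W : Submodule ℝ (H × K)) (m : H → K) (C ν T : ℝ) (F F1 : ℝ → K) (x0 : H)
    (u : ℝ → H) (z : ℝ → K), Frame W m C → 0 < ν → 0 < T → FH T F F1 →
    LH W m T (fun _ => ν) F x0 u z → SE ν T F u z →
    ∀ᵐ s ∂(volume.restrict (Ioc 0 T)), (u s, z s) ∈ W ∧ ∀ T' : ℝ, 0 < T' → s + T' ≤ T →
      LH W m T' (fun _ => ν) (fun t => F (s + t)) (u s) (fun t => u (s + t))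
        (fun t => z (s + t)) ∧
      FH T' (fun t => F (s + t)) (fun t => F1 (s + t)) ∧
      (∫ t in (0 : ℝ)..T', ‖F1 (s + t)‖ ^ 2) ≤ (∫ t in (0 : ℝ)..T, ‖F1 t‖ ^ 2) ∧
      ∀ t ∈ Icc 0 T', dft (fun _ => ν) (fun t => F (s + t)) (u s) (fun t => u (s + t))
        (fun t => z (s + t)) t
        = dft (fun _ => ν) F x0 u z (s + t) - dft (fun _ => ν) F x0 u z s

/-- HE-TP: the two-point inequality for Leray-Hopf solutions. -/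
def S_tp : Prop := ∀ c : ℝ, 0 < c → ∃ C0 : ℝ, 0 ≤ C0 ∧
  ∀ (H K : Type) [NormedAddCommGroup H] [InnerProductSpace ℝ H] [CompleteSpace H]
    [NormedAddCommGroup K] [InnerProductSpace ℝ K] [CompleteSpace K]
    (W : Submodule ℝ (H × K)) (m : H → K) (C ν T : ℝ) (F : ℝ → K) (x0 : H) (u : ℝ → H)
    (z : ℝ → K) (Φ : ℝ) (U : H), Frame W m C → Univ W m c → 0 < ν → 0 < T →
    ContinuousOn F (Icc 0 T) → LH W m T (fun _ => ν) F x0 u z → 0 ≤ Φ →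
    (∀ t ∈ Icc 0 T, ‖F t‖ ≤ Φ) →
    ∀ t1 ∈ Icc 0 T, (u t1, z t1) ∈ W → ∀ a ∈ Icc 0 T, ∀ b ∈ Icc 0 T, a ≤ b →
      (dft (fun _ => ν) F x0 u z b - dft (fun _ => ν) F x0 u z a) / ν ^ (5 / 2 : ℝ)
        + 1 / 2 * (∫ s in a..b, ‖z s‖ ^ 2 / ν ^ (3 / 2 : ℝ)) ≤
        C0 * (∫ s in a..b, (‖z t1‖ ^ 2 / ν ^ (3 / 2 : ℝ) + Φ ^ 2 / ν ^ (7 / 2 : ℝ)
          + ((‖z t1‖ ^ 2 / ν ^ (3 / 2 : ℝ)) ^ 2 + Φ ^ 2 / ν ^ (7 / 2 : ℝ))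
            * ((‖u s - U‖ / ν ^ (5 / 4 : ℝ)) ^ 2 + (‖u t1 - U‖ / ν ^ (5 / 4 : ℝ)) ^ 2)))
        + C0 * ((‖u a - U‖ / ν ^ (5 / 4 : ℝ) + ‖u b - U‖ / ν ^ (5 / 4 : ℝ))
          * (‖u a - U‖ / ν ^ (5 / 4 : ℝ) + ‖u b - U‖ / ν ^ (5 / 4 : ℝ)
            + ‖u t1 - U‖ / ν ^ (5 / 4 : ℝ)))

/-- HE-GRW: distance to the state at a good time. -/
def S_grw : Prop := ∀ c : ℝ, 0 < c → ∃ C3 : ℝ, 0 ≤ C3 ∧
  ∀ (H K : Type) [NormedAddCommGroup H] [InnerProductSpace ℝ H] [CompleteSpace H]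
    [NormedAddCommGroup K] [InnerProductSpace ℝ K] [CompleteSpace K]
    (W : Submodule ℝ (H × K)) (m : H → K) (C ν T : ℝ) (F : ℝ → K) (x0 : H) (u : ℝ → H)
    (z : ℝ → K) (Φ : ℝ), Frame W m C → Univ W m c → 0 < ν → 0 < T →
    ContinuousOn F (Icc 0 T) → LH W m T (fun _ => ν) F x0 u z → 0 ≤ Φ →
    (∀ t ∈ Icc 0 T, ‖F t‖ ≤ Φ) →
    ∀ t1 ∈ Icc 0 T, (u t1, z t1) ∈ W →
      (∀ t ∈ Icc t1 T, dft (fun _ => ν) F x0 u z t1 ≤ dft (fun _ => ν) F x0 u z t) →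
      ∀ b ∈ Icc t1 T, ‖u b - u t1‖ ^ 2 / ν ^ (5 / 2 : ℝ) ≤
        C3 * ((b - t1) * (‖z t1‖ ^ 2 / ν ^ (3 / 2 : ℝ) + Φ ^ 2 / ν ^ (7 / 2 : ℝ)))
          * Real.exp (C3 * ((b - t1) * (‖z t1‖ ^ 2 / ν ^ (3 / 2 : ℝ)) ^ 2))

/-- HE-CONT: the energy defect is nondecreasing and continuous for Leray-Hopf solutions which are
continuous from the left in `H`. -/
def S_cont : Prop := ∀ (H K : Type) [NormedAddCommGroup H] [InnerProductSpace ℝ H]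
    [CompleteSpace H] [NormedAddCommGroup K] [InnerProductSpace ℝ K] [CompleteSpace K]
    (W : Submodule ℝ (H × K)) (m : H → K) (C ν T : ℝ) (F : ℝ → K) (x0 : H)
    (u : ℝ → H) (z : ℝ → K), Frame W m C → 0 < ν → 0 < T → ContinuousOn F (Icc 0 T) →
    LH W m T (fun _ => ν) F x0 u z → SE ν T F u z →
    x0 ∈ closure {v : H | ∃ ζ, (v, ζ) ∈ W} →
    (∀ t ∈ Ioc 0 T, Filter.Tendsto u (nhdsWithin t (Iio t)) (nhds (u t))) →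
    ContinuousOn (dft (fun _ => ν) F x0 u z) (Icc 0 T) ∧
      MonotoneOn (dft (fun _ => ν) F x0 u z) (Icc 0 T)

end Pool.Agent.W795.HE
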